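import Pool.Agent.W623.SecC.Defs

/-! # Points over the fraction field of a discrete valuation ring -/

namespace Pool.Agent.W623.SecC

open Polynomial

section dvr

variable {A k : Type*} [CommRing A] [IsDomain A] [IsDiscreteValuationRing A] [Field k]
  [Algebra A k] [IsFractionRing A k]

lemma exists_unit_zpow (ϖ : A) (hϖ : Irreducible ϖ) (z : k) (hz : z ≠ 0) :
    ∃ (u : Aˣ) (j : ℤ), z = algebraMap A k u * algebraMap A k ϖ ^ j := by
  obtain ⟨b, c, hc, rfl⟩ := IsFractionRing.div_surjective (A := A) z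
  have hc0 : c ≠ 0 := nonZeroDivisors.ne_zero hc
  have hb0 : b ≠ 0 := by
    rintro rfl
    rw [map_zero, zero_div] at hz
    exact hz rfl
  obtain ⟨n, u, rfl⟩ := IsDiscreteValuationRing.eq_unit_mul_pow_irreducible hb0 hϖ
  obtain ⟨m, v, rfl⟩ := IsDiscreteValuationRing.eq_unit_mul_pow_irreducible hc0 hϖ
  have hϖk : algebraMap A k ϖ ≠ 0 := by
    rw [Ne, map_eq_zero_iff _ (IsFractionRing.injective A k)]
    exact hϖ.ne_zero
  have hv : algebraMap A k (v : A) ≠ 0 := (v.isUnit.map (algebraMap A k)).ne_zero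
  refine ⟨u * v⁻¹, (n : ℤ) - m, ?_⟩
  have hv' : algebraMap A k ((v⁻¹ : Aˣ) : A) = (algebraMap A k (v : A))⁻¹ := by
    refine (inv_eq_of_mul_eq_one_right ?_).symm
    rw [← map_mul, Units.mul_inv, map_one]
  rw [Units.val_mul, map_mul, map_mul, map_mul, map_pow, map_pow, hv', zpow_sub₀ hϖk,
    zpow_natCast, zpow_natCast]
  field_simp

lemma zpow_unit_eq (ϖ : A) (hϖ : Irreducible ϖ) (u : A) (hu : IsUnit u) (j : ℤ)
    (h : algebraMap A k ϖ ^ j = algebraMap A k u) : j = 0 := by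
  have hinj := IsFractionRing.injective A k
  rcases lt_trichotomy j 0 with hj | hj | hj
  · exfalso
    obtain ⟨n, hn⟩ := Int.eq_ofNat_of_zero_le (show 0 ≤ -j by omega)
    obtain ⟨u, rfl⟩ := hu
    have h1 : algebraMap A k (u * ϖ ^ n) = algebraMap A k 1 := by
      have hϖk : algebraMap A k ϖ ≠ 0 := by
        rw [Ne, map_eq_zero_iff _ hinj]
        exact hϖ.ne_zero
      rw [map_mul, ← h, map_pow, map_one, ← zpow_natCast, ← hn, ← zpow_add₀ hϖk, add_neg_cancel,
        zpow_zero]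
    have h2 := hinj h1
    have h3 : IsUnit (ϖ ^ n) := IsUnit.of_mul_eq_one_right _ h2
    exact hϖ.not_isUnit ((isUnit_pow_iff (by omega)).1 h3)
  · exact hj
  · exfalso
    obtain ⟨n, rfl⟩ := Int.eq_ofNat_of_zero_le hj.le
    rw [zpow_natCast, ← map_pow] at h
    have h2 := hinj h
    rw [← h2] at hu
    exact hϖ.not_isUnit ((isUnit_pow_iff (by omega)).1 hu)

/-- an element of `k` is integral or its inverse is in the maximal ideal -/
lemma mem_or_inv (ϖ : A) (hϖ : Irreducible ϖ) (x : k) :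
    (∃ b : A, algebraMap A k b = x) ∨
      (x ≠ 0 ∧ ∃ b ∈ IsLocalRing.maximalIdeal A, algebraMap A k b = x⁻¹) := by
  by_cases hx : x = 0
  · exact Or.inl ⟨0, by rw [hx, map_zero]⟩
  obtain ⟨u, j, rfl⟩ := exists_unit_zpow ϖ hϖ x hx
  rcases le_or_gt 0 j with hj | hj
  · obtain ⟨n, rfl⟩ := Int.eq_ofNat_of_zero_le hj
    exact Or.inl ⟨u * ϖ ^ n, by rw [map_mul, map_pow, zpow_natCast]⟩
  · obtain ⟨n, hn⟩ := Int.eq_ofNat_of_zero_le (show 0 ≤ -j by omega)
    refine Or.inr ⟨hx, (u⁻¹ : Aˣ) * ϖ ^ n, ?_, ?_⟩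
    · refine Ideal.mul_mem_left _ _ (Ideal.pow_mem_of_mem _ ?_ n (by omega))
      rw [hϖ.maximalIdeal_eq]
      exact Ideal.mem_span_singleton_self ϖ
    · have hu' : algebraMap A k ((u⁻¹ : Aˣ) : A) = (algebraMap A k (u : A))⁻¹ := by
        refine (inv_eq_of_mul_eq_one_right ?_).symm
        rw [← map_mul, Units.mul_inv, map_one]
      rw [map_mul, map_pow, hu', mul_inv, ← zpow_neg, hn, zpow_natCast]

/-- the values of a polynomial without roots modulo the maximal ideal have even valuation -/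
lemma eval_even (ϖ : A) (hϖ : Irreducible ϖ) (f : A[X]) (hlc : IsUnit f.leadingCoeff)
    (hev : Even f.natDegree) (hroot : ∀ b : A, f.eval b ∉ IsLocalRing.maximalIdeal A) (x : k) :
    ∃ (u : A) (j : ℤ), IsUnit u ∧
      (f.map (algebraMap A k)).eval x = algebraMap A k u * algebraMap A k ϖ ^ (2 * j) := by
  rcases mem_or_inv ϖ hϖ x with ⟨b, rfl⟩ | ⟨hx, b, hb, hbx⟩
  · refine ⟨f.eval b, 0, ?_, ?_⟩
    · by_contra h
      exact hroot b ((IsLocalRing.mem_maximalIdeal _).2 h)
    · rw [mul_zero, zpow_zero, mul_one, eval_map, eval₂_at_apply]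
  · obtain ⟨v, l, hl⟩ := exists_unit_zpow ϖ hϖ x hx
    obtain ⟨n, hn⟩ := hev
    have hr : IsUnit ((reverse f).eval b) := by
      by_contra h
      have h1 : (reverse f).eval b ∈ IsLocalRing.maximalIdeal A :=
        (IsLocalRing.mem_maximalIdeal _).2 h
      rw [← divX_mul_X_add (reverse f), eval_add, eval_mul, eval_X, eval_C,
        coeff_zero_reverse] at h1
      have h2 : f.leadingCoeff ∈ IsLocalRing.maximalIdeal A := by
        have h3 := Ideal.mul_mem_left (IsLocalRing.maximalIdeal A)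
          (eval b (reverse f).divX) hb
        exact (Ideal.add_mem_iff_right _ h3).1 h1
      exact (IsLocalRing.mem_maximalIdeal _).1 h2 hlc
    refine ⟨(reverse f).eval b * (v : A) ^ f.natDegree, l * n, hr.mul (v.isUnit.pow _), ?_⟩
    let _ := invertibleOfNonzero hx
    have h2 := Polynomial.eval₂_reverse_mul_pow (algebraMap A k) x f
    rw [invOf_eq_inv, ← hbx, eval₂_at_apply] at h2
    rw [eval_map, ← h2, map_mul, map_pow]
    have h3 : x ^ f.natDegree = algebraMap A k v ^ f.natDegree *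
        algebraMap A k ϖ ^ (2 * (l * n)) := by
      rw [hl, mul_pow, ← zpow_natCast (algebraMap A k ϖ ^ l), ← zpow_mul]
      congr 2
      rw [hn]
      push_cast
      ring
    rw [h3]
    ring

/-- no points -/
theorem no_affine_point (ϖ : A) (hϖ : Irreducible ϖ) (f : A[X]) (hlc : IsUnit f.leadingCoeff)
    (hev : Even f.natDegree) (hroot : ∀ b : A, f.eval b ∉ IsLocalRing.maximalIdeal A)
    (a : k) (t : A) (ht : IsUnit t) (m : ℤ) (hm : Odd m)
    (ha : a = algebraMap A k t * algebraMap A k ϖ ^ m) (x y : k) :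
    a * y ^ 2 ≠ (f.map (algebraMap A k)).eval x := by
  intro h
  obtain ⟨u, j, hu, huj⟩ := eval_even ϖ hϖ f hlc hev hroot x
  have hϖk : algebraMap A k ϖ ≠ 0 := by
    rw [Ne, map_eq_zero_iff _ (IsFractionRing.injective A k)]
    exact hϖ.ne_zero
  have huk : algebraMap A k u ≠ 0 := (hu.map (algebraMap A k)).ne_zero
  have hy : y ≠ 0 := by
    rintro rfl
    rw [zero_pow (by norm_num), mul_zero, huj] at h
    exact mul_ne_zero huk (zpow_ne_zero _ hϖk) h.symm
  obtain ⟨v, l, rfl⟩ := exists_unit_zpow ϖ hϖ y hy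
  obtain ⟨t, rfl⟩ := ht
  obtain ⟨u, rfl⟩ := hu
  have h1 : algebraMap A k ϖ ^ (m + 2 * l - 2 * j) =
      algebraMap A k ((u * t⁻¹ * (v⁻¹) ^ 2 : Aˣ) : A) := by
    have hinv : ∀ w : Aˣ, algebraMap A k ((w⁻¹ : Aˣ) : A) = (algebraMap A k (w : A))⁻¹ := by
      intro w
      refine (inv_eq_of_mul_eq_one_right ?_).symm
      rw [← map_mul, Units.mul_inv, map_one]
    have hne : ∀ w : Aˣ, algebraMap A k (w : A) ≠ 0 := fun w =>
      (w.isUnit.map (algebraMap A k)).ne_zero
    rw [ha, huj, mul_pow] at h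
    have h2 : (algebraMap A k ϖ ^ l) ^ 2 = algebraMap A k ϖ ^ (2 * l) := by
      rw [mul_comm, zpow_mul, zpow_ofNat]
    rw [h2] at h
    rw [Units.val_mul, Units.val_mul, Units.val_pow_eq_pow_val, map_mul, map_mul, map_pow, hinv,
      hinv, zpow_sub₀ hϖk, zpow_add₀ hϖk]
    have h3 := hne t
    have h4 := hne v
    have h5 : algebraMap A k ϖ ^ (2 * j) ≠ 0 := zpow_ne_zero _ hϖk
    field_simp
    linear_combination h
  have h2 := zpow_unit_eq ϖ hϖ _ (Units.isUnit _) _ h1
  obtain ⟨m', rfl⟩ := hm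
  omega

/-- no points at infinity -/
theorem no_infinite_point (ϖ : A) (hϖ : Irreducible ϖ) (f : A[X]) (hlc : IsUnit f.leadingCoeff)
    (a : k) (t : A) (ht : IsUnit t) (m : ℤ) (hm : Odd m)
    (ha : a = algebraMap A k t * algebraMap A k ϖ ^ m) (r : k) :
    a * r ^ 2 ≠ algebraMap A k f.leadingCoeff := by
  intro h
  have hroot : ∀ b : A, (C f.leadingCoeff : A[X]).eval b ∉ IsLocalRing.maximalIdeal A := by
    intro b hb
    rw [eval_C] at hb
    exact (IsLocalRing.mem_maximalIdeal _).1 hb hlc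
  refine no_affine_point ϖ hϖ (C f.leadingCoeff : A[X]) (by rwa [leadingCoeff_C])
    (by rw [natDegree_C]; exact Even.zero) hroot a t ht m hm ha 0 r ?_
  rw [map_C, eval_C]
  exact h

/-- Hensel's lemma -/
theorem hensel_root [HenselianLocalRing A] (f : A[X]) (hlc : IsUnit f.leadingCoeff)
    (hs : (f.map (IsLocalRing.residue A)).Separable) (b : A)
    (hb : f.eval b ∈ IsLocalRing.maximalIdeal A) : ∃ θ : A, f.eval θ = 0 := by
  obtain ⟨u, hu⟩ := hlc
  have hmon : (C ((u⁻¹ : Aˣ) : A) * f).Monic := by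
    apply monic_C_mul_of_mul_leadingCoeff_eq_one
    rw [← hu, Units.inv_mul]
  have h1 : (C ((u⁻¹ : Aˣ) : A) * f).eval b ∈ IsLocalRing.maximalIdeal A := by
    rw [eval_mul, eval_C]
    exact Ideal.mul_mem_left _ _ hb
  have hres : (f.map (IsLocalRing.residue A)).eval (IsLocalRing.residue A b) = 0 := by
    rw [eval_map, eval₂_at_apply, IsLocalRing.residue_eq_zero_iff]
    exact hb
  have h2 : IsUnit ((derivative (C ((u⁻¹ : Aˣ) : A) * f)).eval b) := by
    rw [derivative_C_mul, eval_mul, eval_C]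
    refine (u⁻¹).isUnit.mul ?_
    by_contra hcon
    have h3 : (derivative f).eval b ∈ IsLocalRing.maximalIdeal A :=
      (IsLocalRing.mem_maximalIdeal _).2 hcon
    rw [← IsLocalRing.residue_eq_zero_iff, ← eval₂_at_apply, ← eval_map, ← derivative_map] at h3
    obtain ⟨P, Q, hPQ⟩ := hs
    have h4 := congrArg (Polynomial.eval (IsLocalRing.residue A b)) hPQ
    rw [eval_add, eval_mul, eval_mul, hres, h3, mul_zero, mul_zero, add_zero, eval_one] at h4
    exact zero_ne_one h4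
  obtain ⟨θ, hθ, -⟩ := HenselianLocalRing.is_henselian _ hmon b h1 h2
  refine ⟨θ, ?_⟩
  rw [IsRoot.def, eval_mul, eval_C] at hθ
  exact (Units.mul_right_eq_zero _).1 hθ

end dvr

end Pool.Agent.W623.SecC
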