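import Pool.Agent.W623.SecC.Main
import Pool.Agent.W623.SecC.Pts
import Pool.Agent.W337.SecC.PartA1
import Pool.Agent.W337.SecC.PartA4
import Pool.Agent.W52.SecC.A2
import Pool.Agent.W52.SecC.A3
import Pool.Agent.W417.SecC.A5
import Pool.Agent.W235.SecC.PartA6
import Pool.Agent.W368.SecC.PartA7
import Pool.Agent.W349.SecC.PartA8

/-! # The local theorem without hypotheses -/

namespace Pool.Agent.W623.SecC

open Pool.Agent.W620.SC Polynomial

universe u v w

theorem allA6 : PartA6.{u} := Pool.Agent.W235.SecC.partA6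

theorem allA7 : PartA7.{u, v} := Pool.Agent.W368.SecC.partA7 allA6

theorem allA8 : PartA8.{u, v} :=
  W349.SecC.partA8 (Pool.Agent.W52.SecC.A2.partA2 Pool.Agent.W337.SecC.partA1)
    Pool.Agent.W52.SecC.A3.partA3
    (Pool.Agent.W337.SecC.partA4 Pool.Agent.W337.SecC.partA1 Pool.Agent.W52.SecC.A3.partA3)
    Pool.Agent.W417.SecC.A5.partA5 allA6

theorem local_no_section {A k : Type u} {F : Type v} {Ω : Type w} [CommRing A] [IsDomain A]
    [IsDiscreteValuationRing A] [Finite (IsLocalRing.ResidueField A)] [Field k] [Algebra A k]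
    [IsFractionRing A k] [CharZero k] [Field F] [Field Ω] [Algebra k F] [Algebra F Ω]
    [Algebra k Ω] [IsScalarTower k F Ω] [IsAlgClosed Ω] [Algebra.IsAlgebraic F Ω]
    (h2 : IsUnit (2 : A)) (f : A[X]) (hlc : IsUnit f.leadingCoeff)
    (hs : (f.map (IsLocalRing.residue A)).Separable) (hev : Even f.natDegree)
    (h4 : 4 ≤ f.natDegree) (hroot : ∀ b : A, f.eval b ∉ IsLocalRing.maximalIdeal A)
    (ϖ : A) (hϖ : Irreducible ϖ) (a : k) (t : A) (ht : IsUnit t) (m : ℤ) (hm : Odd m)
    (ha : a = algebraMap A k t * algebraMap A k ϖ ^ m)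
    (U : Set (ValuationSubring F)) (hU : ∀ O ∈ U, ∀ c : k, algebraMap k F c ∈ O)
    (x y : F) (hxy : algebraMap k F a * y ^ 2 = aeval x (f.map (algebraMap A k))) :
    IsEmpty (GSection k F Ω U) :=
  local_no_section' allA7 allA8 h2 f hlc hs hev h4 hroot ϖ hϖ a t ht m hm ha U hU x y hxy

end Pool.Agent.W623.SecC
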