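import Mathlib

/-! # The combinatorial part -/

namespace Pool.Agent.W623.SecC

open Finset

lemma zmod2_cases (a : ZMod 2) : a = 0 ∨ a = 1 := by
  fin_cases a
  · exact Or.inl rfl
  · exact Or.inr rfl

theorem comb_fix {X : Type*} [Fintype X] [DecidableEq X] (hX4 : 4 ≤ Fintype.card X)
    (w : X → X → ZMod 2) (φ : Equiv.Perm X) (hφ : ∀ i j, w (φ i) (φ j) = w i j) (r : X)
    (h1 : ∀ i, i ≠ r → w i r = 1) (h0 : ∀ i j, i ≠ r → j ≠ r → w i j = 0) : φ r = r := by
  by_contra hne
  obtain ⟨t, ht⟩ : ∃ t, t ∉ ({r, φ r} : Finset X) := by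
    by_contra hcon
    push Not at hcon
    have h2 : (univ : Finset X) ⊆ {r, φ r} := fun t _ => hcon t
    have h3 := card_le_card h2
    have h4 : ({r, φ r} : Finset X).card ≤ 2 := card_le_two
    rw [card_univ] at h3
    omega
  rw [mem_insert, mem_singleton, not_or] at ht
  have h2 := hφ (φ.symm t) r
  rw [φ.apply_symm_apply, h0 t (φ r) ht.1 hne, h1 (φ.symm t)] at h2
  · exact absurd h2 (by decide)
  · intro h
    apply ht.2
    rw [← h, φ.apply_symm_apply]

theorem comb {X : Type*} [Fintype X] [DecidableEq X] (hX : Even (Fintype.card X))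
    (hX4 : 4 ≤ Fintype.card X) (w : X → X → ZMod 2) (hw : ∀ i j l, w i j + w j l = w i l)
    (φ : Equiv.Perm X) (hφ : ∀ i j, w (φ i) (φ j) = w i j) (hsum : ∀ j, ∑ i, w i j = 1)
    (hE : ∀ i i' l l', i ≠ i' → l ≠ l' → w i i' = 0 → w l l' = 0 → w i l = 1 → False) :
    ∃ i, φ i = i := by
  have hself : ∀ i, w i i = 0 := fun i => by
    have := hw i i i
    simpa using this
  have hsymm : ∀ i j, w i j = w j i := by
    intro i j
    have h1 := hw i j i
    rw [hself] at h1
    rcases zmod2_cases (w i j) with h | h <;> rcases zmod2_cases (w j i) with h' | h' <;>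
      rw [h, h'] at h1 ⊢
    · exact absurd h1 (by decide)
    · exact absurd h1 (by decide)
  have hX0 : Nonempty X := Fintype.card_pos_iff.1 (by omega)
  obtain ⟨j0⟩ := hX0
  set A : Finset X := univ.filter fun i => w i j0 = 1 with hA
  set B : Finset X := univ.filter fun i => ¬ w i j0 = 1 with hB
  have hAB : A.card + B.card = Fintype.card X := by
    rw [hA, hB, ← card_univ]
    exact card_filter_add_card_filter_not (s := (univ : Finset X)) (fun i => w i j0 = 1)
  have hmA : ∀ i, i ∈ A ↔ w i j0 = 1 := fun i => by simp [hA]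
  have hmB : ∀ i, i ∈ B ↔ w i j0 = 0 := fun i => by
    rw [hB, mem_filter]
    rcases zmod2_cases (w i j0) with h | h <;> simp [h]
  have hcard : (A.card : ZMod 2) = 1 := by
    rw [← hsum j0]
    have h1 : ∀ i, w i j0 = if w i j0 = 1 then 1 else 0 := fun i => by
      rcases zmod2_cases (w i j0) with h | h <;> simp [h]
    rw [sum_congr rfl fun i _ => h1 i, sum_ite, sum_const_zero, add_zero, sum_const, nsmul_eq_mul,
      mul_one]
  have hoddA : Odd A.card := by
    rw [← ZMod.natCast_eq_one_iff_odd]
    exact hcard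
  have hoddB : Odd B.card := by
    rcases Nat.even_or_odd B.card with h | h
    · exfalso
      have := hoddA.add_even h
      rw [hAB] at this
      exact (Nat.not_odd_iff_even.2 hX) this
    · exact h
  have hrel : ∀ i j, w i j = w i j0 + w j j0 := fun i j => by
    rw [← hw i j0 j, hsymm j0 j]
  have key : A.card ≤ 1 ∨ B.card ≤ 1 := by
    by_contra hcon
    push Not at hcon
    obtain ⟨i, hi, i', hi', hii⟩ := one_lt_card.1 hcon.1
    obtain ⟨l, hl, l', hl', hll⟩ := one_lt_card.1 hcon.2
    rw [hmA] at hi hi'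
    rw [hmB] at hl hl'
    refine hE i i' l l' hii hll ?_ ?_ ?_
    · rw [hrel, hi, hi']; decide
    · rw [hrel, hl, hl']; decide
    · rw [hrel, hi, hl]; decide
  rcases key with h | h
  · have h1 : A.card = 1 := by
      obtain ⟨m, hm⟩ := hoddA
      omega
    obtain ⟨r, hr⟩ := card_eq_one.1 h1
    have hr1 : w r j0 = 1 := (hmA r).1 (by rw [hr]; exact mem_singleton_self r)
    have hr0 : ∀ i, i ≠ r → w i j0 = 0 := by
      intro i hi
      rcases zmod2_cases (w i j0) with h | h
      · exact h
      · exfalso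
        apply hi
        have := (hmA i).2 h
        rw [hr, mem_singleton] at this
        exact this
    refine ⟨r, comb_fix hX4 w φ hφ r ?_ ?_⟩
    · intro i hi
      rw [hrel, hr1, hr0 i hi]; decide
    · intro i j hi hj
      rw [hrel, hr0 i hi, hr0 j hj]; decide
  · have h1 : B.card = 1 := by
      obtain ⟨m, hm⟩ := hoddB
      omega
    obtain ⟨r, hr⟩ := card_eq_one.1 h1
    have hr1 : w r j0 = 0 := (hmB r).1 (by rw [hr]; exact mem_singleton_self r)
    have hr0 : ∀ i, i ≠ r → w i j0 = 1 := by
      intro i hi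
      rcases zmod2_cases (w i j0) with h | h
      · exfalso
        apply hi
        have := (hmB i).2 h
        rw [hr, mem_singleton] at this
        exact this
      · exact h
    refine ⟨r, comb_fix hX4 w φ hφ r ?_ ?_⟩
    · intro i hi
      rw [hrel, hr1, hr0 i hi]; decide
    · intro i j hi hj
      rw [hrel, hr0 i hi, hr0 j hj]; decide

end Pool.Agent.W623.SecC
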