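import Pool.Agent.W623.SecC.Ell
import Pool.Agent.W623.SecC.Comb

/-! # The abstract theorem: the Frobenius fixes a root -/

namespace Pool.Agent.W623.SecC

open Pool.Agent.W620.SC Polynomial

universe u v

lemma zmod2_even {j : ℤ} (h : ((j : ZMod 2)) = 0) : Even j := by
  rw [ZMod.intCast_zmod_eq_zero_iff_dvd] at h
  exact even_iff_two_dvd.2 (by exact_mod_cast h)

lemma zmod2_of_even {j : ℤ} (h : Even j) : ((j : ZMod 2)) = 0 := by
  rw [ZMod.intCast_zmod_eq_zero_iff_dvd]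
  exact_mod_cast even_iff_two_dvd.1 h

lemma zmod2_of_odd {j : ℤ} (h : Odd j) : ((j : ZMod 2)) = 1 := by
  obtain ⟨i, rfl⟩ := h
  push_cast
  have : (2 : ZMod 2) = 0 := by decide
  rw [this, zero_mul, zero_add]

namespace Dat

section pow

variable {k A M : Type*} [Field k] [Field A] [Field M] [Algebra k A] (D : Dat k A M)

lemma powV (m : ℕ) (x : A) : (D.φ ^ m) x ∈ D.V ↔ x ∈ D.V := by
  induction m generalizing x with
  | zero => exact Iff.rfl
  | succ n ih =>
    rw [pow_succ]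
    change (D.φ ^ n) (D.φ x) ∈ D.V ↔ _
    rw [ih, D.φV]

lemma powS (m : ℕ) (x : A) : (D.φ ^ m) x ∈ D.S ↔ x ∈ D.S := by
  induction m generalizing x with
  | zero => exact Iff.rfl
  | succ n ih =>
    rw [pow_succ]
    change (D.φ ^ n) (D.φ x) ∈ D.S ↔ _
    rw [ih, D.φS]

lemma φnon {x : A} (h : x ∈ D.V.nonunits) : D.φ x ∈ D.V.nonunits := by
  rw [ValuationSubring.mem_nonunits_iff_or] at h ⊢
  rcases h with h | h
  · exact Or.inl (by rw [h, map_zero])
  · refine Or.inr ?_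
    rw [← map_inv₀, D.φV]
    exact h

lemma powQ (q : ℕ) (hq : ∀ x ∈ D.V, D.φ x - x ^ q ∈ D.V.nonunits) (m : ℕ) :
    ∀ x ∈ D.V, (D.φ ^ m) x - x ^ (q ^ m) ∈ D.V.nonunits := by
  induction m with
  | zero =>
    intro x _
    have : (D.φ ^ 0) x = x := rfl
    rw [this, pow_zero, pow_one, sub_self, ValuationSubring.mem_nonunits_iff_or]
    exact Or.inl rfl
  | succ n ih =>
    intro x hx
    have h1 : (D.φ ^ (n + 1)) x = D.φ ((D.φ ^ n) x) := by
      rw [pow_succ']
      rfl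
    have h2 : (D.φ ^ (n + 1)) x - x ^ (q ^ (n + 1)) =
        D.φ ((D.φ ^ n) x - x ^ (q ^ n)) + (D.φ (x ^ (q ^ n)) - (x ^ (q ^ n)) ^ q) := by
      rw [h1, map_sub, ← pow_mul, pow_succ q n]
      ring
    rw [h2]
    exact add_mem (D.φnon (ih x hx)) (hq _ (pow_mem hx _))

/-- the data for a power of `φ` -/
noncomputable def pw (m : ℕ) : Dat k A M where
  s := D.s
  ι := D.ι
  hι := D.hι
  cont := D.cont
  S := D.S
  V := D.V
  ϖ := D.ϖ
  ϖ0 := D.ϖ0
  ϖn := D.ϖn
  sq := D.sq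
  tame := D.tame
  φ := D.φ ^ m
  φV := D.powV m
  φS := D.powS m

end pow

section abs

variable {k : Type*} {A : Type u} {M : Type v} [Field k] [Field A] [Field M] [Algebra k A]
  (D : Dat k A M)

theorem abs [CharZero k] [IsAlgClosed A] [Algebra.IsAlgebraic k A] (hA8 : PartA8.{u, v})
    (h2 : (2 : A)⁻¹ ∈ D.V) (q : ℕ) (hq2 : 2 ≤ q) (hq : ∀ x ∈ D.V, D.φ x - x ^ q ∈ D.V.nonunits)
    {X : Type*} [Fintype X] [DecidableEq X] (hX : Even (Fintype.card X))
    (hX4 : 4 ≤ Fintype.card X) (θ : X → A) (hθS : ∀ i, θ i ∈ D.S)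
    (hθd : ∀ i j, i ≠ j → IsU D.V (θ i - θ j)) (π : Equiv.Perm X)
    (hπ : ∀ i, D.φ (θ i) = θ (π i)) (x y : M) (hx : ∀ σ, D.s σ x = x) (hy : ∀ σ, D.s σ y = y)
    (hy0 : y ≠ 0) (c : A) (hcS : c ∈ D.S) (jc : ℤ) (hjc : Odd jc) (hc : IsU D.V (c / D.p ^ jc))
    (hxy : D.ι c * y ^ 2 = ∏ i, (x - D.ι (θ i))) (htr : ∀ a, D.ι a ≠ x)
    (hsq : ∀ i j, ∃ α : M, α ^ 2 = (x - D.ι (θ i)) / (x - D.ι (θ j))) (hroots : D.HasRoots) :
    ∃ i, π i = i := by
  have hxRS : x ∈ D.RS := fun σ _ => hx σ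
  have hyRS : y ∈ D.RS := fun σ _ => hy σ
  have hne : ∀ i, x - D.ι (θ i) ≠ 0 := fun i h => htr (θ i) (sub_eq_zero.1 h).symm
  have hmem : ∀ i, x - D.ι (θ i) ∈ D.RS := fun i => sub_mem hxRS (D.ι_mem (hθS i))
  have hpar : ∀ i j, ∃ n : ℤ, D.Par ((x - D.ι (θ i)) / (x - D.ι (θ j))) n := by
    intro i j
    obtain ⟨α, hα⟩ := hsq i j
    exact D.exists_par (div_mem (hmem i) (hmem j)) (div_ne_zero (hne i) (hne j)) hα
  choose n hn using hpar
  have hcoc : ∀ i j l, ((n i j : ZMod 2)) + n j l = n i l := by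
    intro i j l
    have h1 := (hn i j).mul (hn j l)
    rw [div_mul_div_cancel₀ (hne j)] at h1
    have h3 := h1.unique (hn i l)
    rw [← h3, Int.cast_add]
  have hself : ∀ i, ((n i i : ZMod 2)) = 0 := fun i => by
    have := hcoc i i i
    simpa using this
  have hsymm : ∀ i j, ((n i j : ZMod 2)) = n j i := by
    intro i j
    have h1 := hcoc i j i
    rw [hself] at h1
    rcases zmod2_cases ((n i j : ZMod 2)) with h | h <;>
      rcases zmod2_cases ((n j i : ZMod 2)) with h' | h' <;> rw [h, h'] at h1 ⊢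
    · exact absurd h1 (by decide)
    · exact absurd h1 (by decide)
  have hφ : ∀ i j, ((n (π i) (π j) : ZMod 2)) = n i j := by
    intro i j
    have h1 := (hn i j).map_φ
    rw [map_div₀, map_sub, map_sub, hx, D.hι, D.hι, hπ, hπ] at h1
    exact (hn (π i) (π j)).unique h1
  have hsum : ∀ j, ∑ i, ((n i j : ZMod 2)) = 1 := by
    intro j
    have h1 := Par.prod (D := D) Finset.univ (fun i => (x - D.ι (θ i)) / (x - D.ι (θ j)))
      (fun i => n i j) (fun i _ => hn i j)
    rw [Finset.prod_div_distrib, Finset.prod_const, Finset.card_univ, ← hxy] at h1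
    obtain ⟨m, hm⟩ := hX
    have h3 : D.ι c * y ^ 2 / (x - D.ι (θ j)) ^ Fintype.card X =
        D.ι c * (y / (x - D.ι (θ j)) ^ m) ^ 2 := by
      rw [hm, ← two_mul, mul_comm 2 m, pow_mul, div_pow, mul_div_assoc]
    rw [h3] at h1
    have h4 := (Par.const hcS hc).mul (Par.sq (D := D)
      (u := y / (x - D.ι (θ j)) ^ m) (div_mem hyRS (pow_mem (hmem j) _))
      (div_ne_zero hy0 (pow_ne_zero _ (hne j))))
    have h5 := h1.unique h4
    rw [Int.cast_sum, add_zero, zmod2_of_odd hjc] at h5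
    exact h5
  refine comb hX hX4 (fun i j => ((n i j : ZMod 2))) hcoc π hφ hsum ?_
  intro i i' l l' hii hll hwi hwl hwil
  -- the elliptic curve
  have hil : i ≠ l := by
    rintro rfl
    rw [hself] at hwil
    exact absurd hwil (by decide)
  have hi'l : ((n i' l : ZMod 2)) = 1 := by
    rw [← hcoc i' i l, hsymm i' i, hwi, hwil, zero_add]
  have hil' : ((n i l' : ZMod 2)) = 1 := by
    rw [← hcoc i l l', hwl, hwil, add_zero]
  have hi'l' : ((n i' l' : ZMod 2)) = 1 := by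
    rw [← hcoc i' l l', hwl, hi'l, add_zero]
  have hne' : ∀ a b, ((n a b : ZMod 2)) = 1 → a ≠ b := by
    rintro a b h rfl
    rw [hself] at h
    exact absurd h (by decide)
  set t : Fin 3 → X := ![i', l, l'] with ht
  have hti : ∀ r, t r ≠ i := by
    intro r
    fin_cases r
    · exact hii.symm
    · exact hil.symm
    · exact (hne' _ _ hil').symm
  have htt : ∀ r r', r ≠ r' → t r ≠ t r' := by
    intro r r' hr
    fin_cases r <;> fin_cases r'
    · exact absurd rfl hr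
    · exact hne' _ _ hi'l
    · exact hne' _ _ hi'l'
    · exact (hne' _ _ hi'l).symm
    · exact absurd rfl hr
    · exact hll
    · exact (hne' _ _ hi'l').symm
    · exact hll.symm
    · exact absurd rfl hr
  have hd0 : ∀ r, θ (t r) - θ i ≠ 0 := fun r => (hθd _ _ (hti r)).1
  set e : Fin 3 → A := fun r => (θ (t r) - θ i)⁻¹ with he
  set z : M := (x - D.ι (θ i))⁻¹ with hz
  have hze : ∀ r, z - D.ι (e r) = D.ι (-(θ (t r) - θ i)⁻¹) *
      ((x - D.ι (θ (t r))) / (x - D.ι (θ i))) := by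
    intro r
    have h1 : D.ι (θ (t r)) - D.ι (θ i) ≠ 0 := by
      rw [← map_sub]
      exact (_root_.map_ne_zero _).2 (hd0 r)
    rw [hz, he, map_neg, map_inv₀, map_sub]
    have h3 := hne i
    field_simp
    ring
  have hepar : ∀ r, D.Par (z - D.ι (e r)) (0 + n (t r) i) := by
    intro r
    rw [hze]
    refine (Par.const_unit (neg_mem (inv_mem (sub_mem (hθS _) (hθS _)))) ?_).mul (hn _ _)
    exact (hθd _ _ (hti r)).inv.neg
  have hprod := Par.prod (D := D) Finset.univ (fun r => z - D.ι (e r)) _ (fun r _ => hepar r)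
  obtain ⟨w, hw, hwz⟩ := hprod.exists_root (by
    apply zmod2_even
    rw [Int.cast_sum, Fin.sum_univ_three]
    simp only [zero_add]
    change ((n i' i : ZMod 2)) + n l i + n l' i = 0
    rw [hsymm i' i, hsymm l i, hsymm l' i, hwi, hwil, hil']
    decide)
  -- a power of `φ` fixes the roots and `w`
  set m := orderOf π with hm
  have hm0 : 0 < m := orderOf_pos π
  have hpowπ : ∀ (N : ℕ) (a : X), (D.φ ^ N) (θ a) = θ ((π ^ N) a) := by
    intro N
    induction N with
    | zero => intro a; rfl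
    | succ N ih =>
      intro a
      rw [pow_succ, pow_succ]
      change (D.φ ^ N) (D.φ (θ a)) = θ ((π ^ N) (π a))
      rw [hπ, ih]
  have hfix : ∀ (a : X), (D.φ ^ m) (θ a) = θ a := by
    intro a
    rw [hpowπ, hm, pow_orderOf_eq_one]
    rfl
  have hfix2 : ∀ (a : X), (D.φ ^ (m * 2)) (θ a) = θ a := by
    intro a
    rw [pow_mul, pow_two]
    change (D.φ ^ m) ((D.φ ^ m) (θ a)) = _
    rw [hfix, hfix]
  have hzfix : ∀ N : ℕ, (D.φ ^ N) (θ i) = θ i → D.s (D.φ ^ N) z = z := by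
    intro N hN
    rw [hz, map_inv₀, map_sub, hx, D.hι, hN]
  have hwfix : D.s (D.φ ^ (m * 2)) w = w := by
    have h1 : (D.s (D.φ ^ m) w) ^ 2 = w ^ 2 := by
      rw [← map_pow, hwz, map_prod]
      refine Finset.prod_congr rfl fun r _ => ?_
      rw [map_sub, hzfix m (hfix i), D.hι]
      congr 2
      simp only [he]
      rw [map_inv₀, map_sub, hfix, hfix]
    have h3 : D.s (D.φ ^ (m * 2)) w = D.s (D.φ ^ m) (D.s (D.φ ^ m) w) := by
      rw [pow_mul, pow_two, map_mul]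
      rfl
    rw [h3]
    rcases sq_eq_sq_iff_eq_or_eq_neg.1 h1 with h4 | h4
    · rw [h4, h4]
    · rw [h4, map_neg, h4, neg_neg]
  have hfin := (D.pw (m * 2)).ell hA8 h2 (q ^ (m * 2))
    (le_trans hq2 (Nat.le_self_pow (by omega) q)) (D.powQ q hq (m * 2)) e
    (fun r => inv_mem (sub_mem (hθS _) (hθS _))) (fun r => (hθd _ _ (hti r)).2.2) ?_ ?_ z w
    (inv_mem (hmem i)) hw (hzfix _ (hfix2 i)) hwfix hwz ?_ hroots 1 (n l i) ?_
  · have h3 := zmod2_of_even hfin
    rw [hsymm l i, hwil] at h3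
    exact absurd h3 (by decide)
  · intro r r' hr
    have h3 : e r - e r' = (θ (t r') - θ (t r)) * ((θ (t r) - θ i)⁻¹ * (θ (t r') - θ i)⁻¹) := by
      simp only [he]
      have h4 := hd0 r
      have h5 := hd0 r'
      field_simp
      ring
    rw [h3]
    exact (hθd _ _ (htt r' r hr.symm)).mul ((hθd _ _ (hti r)).inv.mul (hθd _ _ (hti r')).inv)
  · intro r
    change (D.φ ^ (m * 2)) (e r) = e r
    simp only [he]
    rw [map_inv₀, map_sub, hfix2, hfix2]
  · intro a h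
    refine htr (a⁻¹ + θ i) ?_
    change D.ι a = z at h
    rw [map_add, map_inv₀, h, hz, inv_inv, sub_add_cancel]
  · have h3 := hepar 1
    rw [zero_add] at h3
    exact h3

end abs

end Dat

end Pool.Agent.W623.SecC
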