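import Pool.Agent.W623.SecC.Par

/-! # Application of the theorem on elliptic curves (Part A8) -/

namespace Pool.Agent.W623.SecC

open Pool.Agent.W620.SC Polynomial

universe u v

lemma ev_map {K R R' : Type*} [Field K] [Field R] [Field R'] (W : WeierstrassCurve.Affine K)
    (ι : K →+* R) (z w : R) (h : W.polynomial.eval₂ (eval₂RingHom ι z) w = 0) (g : R →+* R')
    (ι' : K →+* R') (z' w' : R') (h' : W.polynomial.eval₂ (eval₂RingHom ι' z') w' = 0)
    (hι : g.comp ι = ι') (hz : g z = z') (hw : g w = w') (f : W.CoordinateRing) :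
    g (ev W ι z w h f) = ev W ι' z' w' h' f := by
  subst hι hz hw
  obtain ⟨P, rfl⟩ := AdjoinRoot.mk_surjective f
  unfold ev
  rw [AdjoinRoot.lift_mk, AdjoinRoot.lift_mk, hom_eval₂]
  congr 1
  ext x
  · simp
  · simp

/-- roots of polynomials over an algebraically closed subfield -/
lemma alg_mem {A M : Type*} [Field A] [Field M] [IsAlgClosed A] (ι : A →+* M) {P : A[X]}
    (hP : P ≠ 0) {z : M} (h : P.eval₂ ι z = 0) : ∃ a, ι a = z := by
  have hs : P.Splits := IsAlgClosed.splits _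
  have hs' := hs.mem_range_of_isRoot (i := ι) (x := z) (by
    intro h1
    exact hP h1) (by
    simpa [Polynomial.IsRoot, eval_map] using h)
  exact hs'

/-- the equation of `crv` at a point of a field -/
lemma eval_crv {K R : Type*} [Field K] [Field R] (e : Fin 3 → K) (W : WeierstrassCurve.Affine K)
    (hW : W = crv e) (ι : K →+* R) (z w : R) (h : w ^ 2 = ∏ i, (z - ι (e i))) :
    W.polynomial.eval₂ (eval₂RingHom ι z) w = 0 := by
  subst hW
  rw [Fin.prod_univ_three] at h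
  have h1 : WeierstrassCurve.Affine.polynomial (crv e) =
      X ^ 2 + C (0 : K[X]) * X - C (X ^ 3 + C (-(e 0 + e 1 + e 2)) * X ^ 2 +
        C (e 0 * e 1 + e 0 * e 2 + e 1 * e 2) * X + C (-(e 0 * e 1 * e 2))) := by
    rw [WeierstrassCurve.Affine.polynomial]
    simp [crv]
  rw [h1]
  simp only [eval₂_sub, eval₂_add, eval₂_mul, eval₂_pow, eval₂_X, eval₂_C, coe_eval₂RingHom]
  simp only [map_neg, map_add, map_mul, eval₂_zero]
  linear_combination h

namespace Dat

variable {k : Type*} {A : Type u} {M : Type v} [Field k] [Field A] [Field M] [Algebra k A]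
  (D : Dat k A M)

/-- generators of `2 ^ n`-th powers of the ideals of points have `2 ^ n`-th roots in `M` -/
def HasRoots : Prop :=
  ∀ (z w : M) (e : Fin 3 → D.S) (W : WeierstrassCurve.Affine D.S), W = crv e →
    ∀ hzw : W.polynomial.eval₂ (eval₂RingHom (D.ι.comp (algebraMap D.S A)) z) w = 0,
      (∀ P : D.S[X], P ≠ 0 → P.eval₂ (D.ι.comp (algebraMap D.S A)) z ≠ 0) →
      ∀ (n : ℕ) (x y : D.S), W.Nonsingular x y → ∀ f : W.CoordinateRing,
        WeierstrassCurve.Affine.CoordinateRing.XYIdeal W x (C y) ^ (2 ^ n) = Ideal.span {f} →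
          ∃ α : M, α ^ (2 ^ n) = ev W (D.ι.comp (algebraMap D.S A)) z w hzw f

/-- the constants of `S` in the fixed field -/
noncomputable def ιS : D.S →+* D.RS :=
  (D.ι.comp (algebraMap D.S A)).codRestrict D.RS fun x => D.ι_mem x.2

/-- `φ` on `S` -/
noncomputable def φSe : D.S ≃+* D.S where
  toFun x := ⟨D.φ x, (D.φS _).2 x.2⟩
  invFun x := ⟨D.φ.symm x, by
    rw [← D.φS, D.φ.apply_symm_apply]
    exact x.2⟩
  left_inv x := Subtype.ext (D.φ.symm_apply_apply _)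
  right_inv x := Subtype.ext (D.φ.apply_symm_apply _)
  map_mul' x y := Subtype.ext (map_mul D.φ _ _)
  map_add' x y := Subtype.ext (map_add D.φ _ _)

/-- `s(φ)` on the fixed field -/
noncomputable def Φ : D.RS ≃+* D.RS where
  toFun x := ⟨D.s D.φ x, D.φ_mem x.2⟩
  invFun x := ⟨D.s D.φ⁻¹ x, D.φ_mem' x.2⟩
  left_inv x := Subtype.ext (by
    change (D.s D.φ⁻¹ * D.s D.φ) (x : M) = x
    rw [← map_mul, inv_mul_cancel, map_one]
    rfl)
  right_inv x := Subtype.ext (by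
    change (D.s D.φ * D.s D.φ⁻¹) (x : M) = x
    rw [← map_mul, mul_inv_cancel, map_one]
    rfl)
  map_mul' x y := Subtype.ext (map_mul (D.s D.φ) _ _)
  map_add' x y := Subtype.ext (map_add (D.s D.φ) _ _)

/-- the fixed field of `φ` in `S` -/
def K₀ : Subfield D.S where
  carrier := {x | D.φSe x = x}
  mul_mem' := fun {a b} ha hb => by
    change D.φSe (a * b) = a * b
    rw [map_mul, ha, hb]
  one_mem' := map_one _
  add_mem' := fun {a b} ha hb => by
    change D.φSe (a + b) = a + b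
    rw [map_add, ha, hb]
  zero_mem' := map_zero _
  neg_mem' := fun {a} ha => by
    change D.φSe (-a) = -a
    rw [map_neg, ha]
  inv_mem' := fun a ha => by
    change D.φSe a⁻¹ = a⁻¹
    rw [map_inv₀, ha]

/-- `φ` as an automorphism over its fixed field -/
noncomputable def φK : D.S ≃ₐ[D.K₀] D.S :=
  AlgEquiv.ofRingEquiv (f := D.φSe) fun x => x.2

lemma isU_comap {x : D.S} : IsU (D.V.comap (algebraMap D.S A)) x ↔ IsU D.V (x : A) := by
  unfold IsU
  constructor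
  · rintro ⟨h0, h1, h2⟩
    refine ⟨fun h => h0 (Subtype.ext h), h1, ?_⟩
    have h3 : ((x⁻¹ : D.S) : A) ∈ D.V := h2
    rwa [IntermediateField.coe_inv] at h3
  · rintro ⟨h0, h1, h2⟩
    refine ⟨fun h => h0 (by rw [h]; rfl), h1, ?_⟩
    change ((x⁻¹ : D.S) : A) ∈ D.V
    rwa [IntermediateField.coe_inv]

lemma nonunit_comap {x : D.S} (h : (x : A) ∈ D.V.nonunits) :
    x ∈ (D.V.comap (algebraMap D.S A)).nonunits := by
  rw [ValuationSubring.mem_nonunits_iff_or] at h ⊢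
  rcases h with h | h
  · exact Or.inl (Subtype.ext h)
  · refine Or.inr fun h' => h ?_
    have h3 : ((x⁻¹ : D.S) : A) ∈ D.V := h'
    rwa [IntermediateField.coe_inv] at h3

theorem ell [CharZero k] [IsAlgClosed A] [Algebra.IsAlgebraic k A] (hA8 : PartA8.{u, v})
    (h2 : (2 : A)⁻¹ ∈ D.V) (Q : ℕ) (hQ2 : 2 ≤ Q) (hQ : ∀ x ∈ D.V, D.φ x - x ^ Q ∈ D.V.nonunits)
    (e : Fin 3 → A) (heS : ∀ i, e i ∈ D.S) (heV : ∀ i, e i ∈ D.V)
    (hed : ∀ i j, i ≠ j → IsU D.V (e i - e j)) (heφ : ∀ i, D.φ (e i) = e i) (z w : M)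
    (hz : z ∈ D.RS) (hw : w ∈ D.RS) (hφz : D.s D.φ z = z) (hφw : D.s D.φ w = w)
    (hzw : w ^ 2 = ∏ i, (z - D.ι (e i))) (htr : ∀ a, D.ι a ≠ z) (hroots : D.HasRoots)
    (i : Fin 3) (j : ℤ) (hij : D.Par (z - D.ι (e i)) j) : Even j := by
  have hchar : CharZero D.S := charZero_of_injective_algebraMap (algebraMap k D.S).injective
  obtain ⟨β, hβ, hβ0, hij⟩ := hij
  have hpφ : D.φSe ⟨D.p, D.pS⟩ = ⟨D.p, D.pS⟩ := Subtype.ext (D.φ.commutes _)
  have htrS : ∀ P : D.S[X], P ≠ 0 → P.eval₂ (D.ι.comp (algebraMap D.S A)) z ≠ 0 := by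
    intro P hP h
    rw [← eval₂_map] at h
    obtain ⟨a, ha⟩ := alg_mem D.ι ((Polynomial.map_ne_zero_iff
      (algebraMap D.S A).injective).2 hP) h
    exact htr a ha
  refine hA8 D.K₀ D.S D.RS (D.V.comap (algebraMap D.S A)) ?_ ?_ ⟨⟨D.p, D.pS⟩, hpφ⟩ ?_ ?_ ?_ D.φK Q
    hQ2 ?_ ?_ (fun i => ⟨⟨e i, heS i⟩, Subtype.ext (heφ i)⟩) ?_ D.ιS D.Φ ?_ ⟨z, hz⟩ ⟨w, hw⟩ ?_ ?_ ?_
    ?_ ?_ ?_ i j ⟨β, hβ⟩ ?_
  · change ((2⁻¹ : D.S) : A) ∈ D.V
    rw [IntermediateField.coe_inv]
    exact h2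
  · intro η hη
    rw [isU_comap] at hη
    obtain ⟨ρ, hρ, -, h1⟩ := D.root_unit 1 η.2 hη
    exact ⟨⟨ρ, hρ⟩, Subtype.ext h1⟩
  · intro h
    have h1 := congrArg (fun x : D.K₀ => ((x : D.S) : A)) h
    exact D.p0 h1
  · exact D.nonunit_comap D.ϖn
  · intro c hc
    obtain ⟨j, hj⟩ := D.tame c c.2 (fun h => hc (Subtype.ext h))
    refine ⟨j, ?_⟩
    rw [isU_comap]
    have h1 : algebraMap D.S A (c / (⟨D.p, D.pS⟩ : D.S) ^ j) =
        (c : A) / algebraMap k A D.ϖ ^ j := by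
      rw [map_div₀, map_zpow₀]
      rfl
    change IsU D.V (algebraMap D.S A (c / (⟨D.p, D.pS⟩ : D.S) ^ j))
    rw [h1]
    exact hj
  · intro x
    exact D.φV x
  · intro x hx
    apply D.nonunit_comap
    exact hQ x hx
  · refine ⟨heV, fun i j hij => ?_⟩
    rw [isU_comap]
    exact hed i j hij
  · intro c
    apply Subtype.ext
    exact D.hι _ _
  · exact Subtype.ext hφz
  · exact Subtype.ext hφw
  · apply D.RS.subtype.injective
    rw [map_pow, map_prod]
    exact hzw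
  · intro P hP h
    apply htrS P hP
    have h1 := congrArg D.RS.subtype h
    rw [hom_eval₂, map_zero] at h1
    exact h1
  · intro n W hW hzw' x y hxy f hf
    have hzw'' := eval_crv _ W hW (D.ι.comp (algebraMap D.S A)) z w hzw
    obtain ⟨α, hα⟩ := hroots z w _ W hW hzw'' htrS n x y hxy f hf
    have h1 : D.RS.subtype (ev W D.ιS ⟨z, hz⟩ ⟨w, hw⟩ hzw' f) =
        ev W (D.ι.comp (algebraMap D.S A)) z w hzw'' f :=
      ev_map W D.ιS _ _ hzw' D.RS.subtype _ z w hzw'' rfl rfl rfl f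
    by_cases hα0 : α = 0
    · rw [hα0, zero_pow (by positivity)] at hα
      refine ⟨0, 0, ?_⟩
      rw [zero_pow (by positivity), mul_zero]
      apply D.RS.subtype.injective
      rw [h1, ← hα, map_zero]
    · obtain ⟨j, γ, hγ, -, h3⟩ := D.kummer n hα0 (by
        rw [hα, ← h1]
        exact (ev W D.ιS ⟨z, hz⟩ ⟨w, hw⟩ hzw' f).2)
      refine ⟨j, ⟨γ, hγ⟩, ?_⟩
      apply D.RS.subtype.injective
      rw [h1, ← hα, h3, map_mul, map_zpow₀, map_pow]
      rfl
  · intro n j γ h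
    refine D.uniq n (β := (γ : M)) γ.2 ?_
    have h1 := congrArg D.RS.subtype h
    rw [map_zpow₀, map_pow] at h1
    exact h1
  · apply D.RS.subtype.injective
    rw [map_mul, map_zpow₀, map_pow]
    exact hij

end Dat

end Pool.Agent.W623.SecC
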