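import Pool.Agent.W623.SecC.Prime
import Pool.Agent.W723.SecC.D1d
import Pool.Agent.W417.SecC.D2
import Pool.Agent.W52.SecC.D3

/-! # Density -/

namespace Pool.Agent.W623.SecC

open Pool.Agent.W620.SC Polynomial NumberField IsDedekindDomain

universe u v w

/-- the twist by `a` has neither points nor sections -/
def Fine {K : Type u} [Field K] (a : K) (f : K[X]) : Prop :=
  (∀ (F : Type v) (Ω : Type w) [Field F] [Field Ω] [Algebra K F] [Algebra F Ω] [Algebra K Ω]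
    [IsScalarTower K F Ω] [IsAlgClosed Ω] [Algebra.IsAlgebraic F Ω]
    (U : Set (ValuationSubring F)), (∀ O ∈ U, ∀ c : K, algebraMap K F c ∈ O) →
    ∀ x y : F, algebraMap K F a * y ^ 2 = aeval x f → IsEmpty (GSection K F Ω U)) ∧
  (∀ x y : K, a * y ^ 2 ≠ f.eval x) ∧ ∀ r : K, a * r ^ 2 ≠ f.leadingCoeff

theorem exists_primes {K : Type u} [Field K] [NumberField K] (f : K[X]) (hf : f.Separable)
    (hev : Even f.natDegree) (h4 : 4 ≤ f.natDegree)
    (hσ : ∃ σ : AlgebraicClosure K ≃ₐ[K] AlgebraicClosure K,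
      ∀ θ : AlgebraicClosure K, aeval θ f = 0 → σ θ ≠ θ) (ε : ℝ) (hε : 0 < ε) :
    ∃ T : Finset (HeightOneSpectrum (𝓞 K)),
      (∀ v ∈ T, ∀ a : 𝓞 K, a ∈ v.asIdeal → a ∉ v.asIdeal ^ 2 →
        Fine.{u, v, w} (algebraMap (𝓞 K) K a) f) ∧
      ∏ v ∈ T, (1 - (1 / (Ideal.absNorm v.asIdeal : ℝ) -
        1 / (Ideal.absNorm v.asIdeal : ℝ) ^ 2)) < ε := by
  classical
  obtain ⟨c, hc, hcf⟩ := IsLocalization.integerNormalization_spec (nonZeroDivisors (𝓞 K)) f
  set g := IsLocalization.integerNormalization (nonZeroDivisors (𝓞 K)) f with hg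
  have hc0 : c ≠ 0 := nonZeroDivisors.ne_zero hc
  have hinj : Function.Injective (algebraMap (𝓞 K) K) := IsFractionRing.injective (𝓞 K) K
  have hcK : algebraMap (𝓞 K) K c ≠ 0 := by
    rw [Ne, map_eq_zero_iff _ hinj]
    exact hc0
  have hgf : g.map (algebraMap (𝓞 K) K) = C (algebraMap (𝓞 K) K c) * f := by
    rw [hcf]
    ext i
    rw [coeff_smul, coeff_C_mul, Algebra.smul_def]
  have hdeg : g.natDegree = f.natDegree := by
    rw [← natDegree_map_eq_of_injective hinj g, hgf, natDegree_C_mul hcK]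
  have hlcg : algebraMap (𝓞 K) K g.leadingCoeff = algebraMap (𝓞 K) K c * f.leadingCoeff := by
    rw [← leadingCoeff_map_of_injective hinj g, hgf, leadingCoeff_mul, leadingCoeff_C]
  have hgs : (g.map (algebraMap (𝓞 K) K)).Separable := by
    rw [hgf]
    exact Separable.unit_mul (isUnit_C.2 hcK.isUnit) hf
  have hgσ : ∃ σ : AlgebraicClosure K ≃ₐ[K] AlgebraicClosure K,
      ∀ θ : AlgebraicClosure K, aeval θ (g.map (algebraMap (𝓞 K) K)) = 0 → σ θ ≠ θ := by
    obtain ⟨σ, hσ⟩ := hσ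
    refine ⟨σ, fun θ hθ => hσ θ ?_⟩
    rw [hgf, map_mul, aeval_C] at hθ
    exact (mul_eq_zero.1 hθ).resolve_left ((_root_.map_ne_zero _).2 hcK)
  obtain ⟨T, hT, hTε⟩ := Pool.Agent.W723.SecC.partD1 K g c hc0 hgs hgσ ε hε
  refine ⟨T, ?_, hTε⟩
  intro v hv a ha ha'
  obtain ⟨hcv, h2v, hlcv, hsv, hrv⟩ := hT v hv
  have hvp : v.asIdeal.IsPrime := v.isPrime
  have hvm : v.asIdeal.IsMaximal := v.isMaximal
  have hb : c * a ∈ v.asIdeal ^ 1 := by
    rw [pow_one]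
    exact Ideal.mul_mem_left _ _ ha
  have hb' : c * a ∉ v.asIdeal ^ (1 + 1) := by
    intro h
    rcases Ideal.IsMaximal.mul_mem_pow _ h with h1 | h1
    · exact hcv h1
    · exact ha' h1
  have hkey : algebraMap (𝓞 K) K (c * a) = algebraMap (𝓞 K) K c * algebraMap (𝓞 K) K a :=
    map_mul _ _ _
  refine ⟨?_, ?_, ?_⟩
  · intro F Ω _ _ _ _ _ _ _ _ U hU x y hxy
    refine prime_no_section v h2v g hlcv hsv hrv (c * a) 1 odd_one hb hb' (by rwa [hdeg])
      (by rwa [hdeg]) U hU x y ?_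
    rw [hkey, hgf, map_mul, map_mul, aeval_C, mul_assoc, hxy]
  · intro x y hxy
    refine prime_no_point v h2v g hlcv hsv hrv (c * a) 1 odd_one hb hb' (by rwa [hdeg]) x y ?_
    rw [hkey, hgf, eval_mul, eval_C, mul_assoc, hxy]
  · intro r hr
    refine prime_no_infinite v h2v g hlcv hsv hrv (c * a) 1 odd_one hb hb' r ?_
    rw [hkey, hlcg, mul_assoc, hr]

/-- **Density**: the twists that are not fine have density zero. -/
theorem density {K : Type u} [Field K] [NumberField K] (f : K[X]) (hf : f.Separable)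
    (hev : Even f.natDegree) (h4 : 4 ≤ f.natDegree)
    (hσ : ∃ σ : AlgebraicClosure K ≃ₐ[K] AlgebraicClosure K,
      ∀ θ : AlgebraicClosure K, aeval θ f = 0 → σ θ ≠ θ) (ε : ℝ) (hε : 0 < ε) :
    ∃ I : Ideal (𝓞 K), I ≠ ⊥ ∧
      (Set.ncard ((Ideal.Quotient.mk I) ''
        {a : 𝓞 K | ¬ Fine.{u, v, w} (algebraMap (𝓞 K) K a) f}) : ℝ) ≤
      ε * Nat.card (𝓞 K ⧸ I) := by
  obtain ⟨T, hT, hTε⟩ := exists_primes.{u, v, w} f hf hev h4 hσ ε hε
  refine ⟨∏ v ∈ T, v.asIdeal ^ 2, ?_, ?_⟩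
  · refine Finset.prod_ne_zero_iff.2 fun v _ => pow_ne_zero _ v.ne_bot
  · have h1 := Pool.Agent.W417.SecC.D2.partD2 K T
      {a : 𝓞 K | ¬ Fine.{u, v, w} (algebraMap (𝓞 K) K a) f} (by
        intro a ha v hv hav
        by_contra hcon
        exact ha (hT v hv a hav hcon))
    exact h1.trans (mul_le_mul_of_nonneg_right hTε.le (Nat.cast_nonneg _))

end Pool.Agent.W623.SecC
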