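import Pool.Agent.W620.SC.Norm
import Pool.Agent.W623.SecC.Defs

/-! # Kummer theory for a section over the tame field `S` -/

namespace Pool.Agent.W623.SecC

open Pool.Agent.W620.SC

/-- the data: a semilinear action `s` on `M`, a field `S` of constants which is tame and closed under
square roots of units, an automorphism `φ`. -/
structure Dat (k A M : Type*) [Field k] [Field A] [Field M] [Algebra k A] where
  s : (A ≃ₐ[k] A) →* RingAut M
  ι : A →+* M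
  hι : ∀ σ a, s σ (ι a) = ι (σ a)
  cont : ∀ w : M, ∃ E : IntermediateField k A, FiniteDimensional k E ∧
    ∀ σ ∈ E.fixingSubgroup, s σ w = w
  S : IntermediateField k A
  V : ValuationSubring A
  ϖ : k
  ϖ0 : ϖ ≠ 0
  ϖn : algebraMap k A ϖ ∈ V.nonunits
  sq : ∀ η ∈ S, IsU V η → ∀ ρ : A, ρ ^ 2 = η → ρ ∈ S
  tame : ∀ c ∈ S, c ≠ 0 → ∃ j : ℤ, IsU V (c / algebraMap k A ϖ ^ j)
  φ : A ≃ₐ[k] A
  φV : ∀ x, φ x ∈ V ↔ x ∈ V
  φS : ∀ x, φ x ∈ S ↔ x ∈ S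

section units

variable {K : Type*} [Field K] {V : ValuationSubring K}

lemma IsU.mul {x y : K} (hx : IsU V x) (hy : IsU V y) : IsU V (x * y) :=
  ⟨mul_ne_zero hx.1 hy.1, mul_mem hx.2.1 hy.2.1, by rw [mul_inv]; exact mul_mem hx.2.2 hy.2.2⟩

lemma IsU.inv {x : K} (hx : IsU V x) : IsU V x⁻¹ :=
  ⟨inv_ne_zero hx.1, hx.2.2, by rw [inv_inv]; exact hx.2.1⟩

lemma IsU.div {x y : K} (hx : IsU V x) (hy : IsU V y) : IsU V (x / y) := by
  rw [div_eq_mul_inv]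
  exact hx.mul hy.inv

lemma isU_one : IsU V (1 : K) := ⟨one_ne_zero, one_mem _, by rw [inv_one]; exact one_mem _⟩

lemma IsU.neg {x : K} (hx : IsU V x) : IsU V (-x) :=
  ⟨neg_ne_zero.2 hx.1, neg_mem hx.2.1, by rw [inv_neg]; exact neg_mem hx.2.2⟩

lemma IsU.pow {x : K} (hx : IsU V x) (n : ℕ) : IsU V (x ^ n) := by
  induction n with
  | zero => rw [pow_zero]; exact isU_one
  | succ n ih => rw [pow_succ]; exact ih.mul hx

lemma mem_of_pow_mem {x : K} {n : ℕ} (hn : 0 < n) (hx : x ^ n ∈ V) : x ∈ V := by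
  have h3 : IsIntegral V x := by
    refine IsIntegral.of_pow hn ?_
    exact isIntegral_algebraMap (x := (⟨x ^ n, hx⟩ : V))
  obtain ⟨y, hy⟩ := IsIntegrallyClosed.isIntegral_iff.1 h3
  rw [← hy]
  exact y.2

lemma IsU.of_pow {x : K} {n : ℕ} (hn : 0 < n) (hx : IsU V (x ^ n)) : IsU V x :=
  ⟨fun h => hx.1 (by rw [h, zero_pow hn.ne']), mem_of_pow_mem hn hx.2.1,
    mem_of_pow_mem hn (by rw [inv_pow]; exact hx.2.2)⟩

lemma IsU.not_nonunit {x : K} (hx : IsU V x) : x ∉ V.nonunits := by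
  intro h
  rcases (V.mem_nonunits_iff_or).1 h with h | h
  · exact hx.1 h
  · exact h hx.2.2

lemma pow_nonunit {p : K} (hp : p ∈ V.nonunits) {n : ℕ} (hn : 0 < n) : p ^ n ∈ V.nonunits := by
  rw [V.mem_nonunits_iff, map_pow]
  exact pow_lt_one₀ zero_le ((V.mem_nonunits_iff).1 hp) hn.ne'

lemma zpow_isU {p : K} (hp : p ∈ V.nonunits) {j : ℤ} (h : IsU V (p ^ j)) : j = 0 := by
  rcases lt_trichotomy j 0 with hj | hj | hj
  · exfalso
    obtain ⟨n, hn⟩ := Int.eq_ofNat_of_zero_le (show 0 ≤ -j by omega)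
    have h1 := h.inv
    rw [← zpow_neg, hn, zpow_natCast] at h1
    exact h1.not_nonunit (pow_nonunit hp (by omega))
  · exact hj
  · exfalso
    obtain ⟨n, hn⟩ := Int.eq_ofNat_of_zero_le hj.le
    rw [hn, zpow_natCast] at h
    exact h.not_nonunit (pow_nonunit hp (by omega))

end units

namespace Dat

variable {k A M : Type*} [Field k] [Field A] [Field M] [Algebra k A] (D : Dat k A M)

/-- the uniformiser in `A` -/
noncomputable def p : A := algebraMap k A D.ϖ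

lemma p0 : D.p ≠ 0 := (_root_.map_ne_zero _).2 D.ϖ0

lemma pS : D.p ∈ D.S := D.S.algebraMap_mem _

/-- the elements fixed by `s(σ)` for all `σ` fixing `S` -/
def RS : Subfield M where
  carrier := {m | ∀ σ ∈ D.S.fixingSubgroup, D.s σ m = m}
  mul_mem' := fun {a b} ha hb σ hσ => by rw [map_mul, ha σ hσ, hb σ hσ]
  one_mem' := fun σ _ => map_one _
  add_mem' := fun {a b} ha hb σ hσ => by rw [map_add, ha σ hσ, hb σ hσ]
  zero_mem' := fun σ _ => map_zero _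
  neg_mem' := fun {a} ha σ hσ => by rw [map_neg, ha σ hσ]
  inv_mem' := fun a ha σ hσ => by rw [map_inv₀, ha σ hσ]

lemma mem_RS {m : M} : m ∈ D.RS ↔ ∀ σ ∈ D.S.fixingSubgroup, D.s σ m = m := Iff.rfl

lemma ι_mem {a : A} (ha : a ∈ D.S) : D.ι a ∈ D.RS := by
  intro σ hσ
  rw [D.hι, (IntermediateField.mem_fixingSubgroup_iff _ _).1 hσ a ha]

lemma mem_of_ι [CharZero k] [IsAlgClosed A] [Algebra.IsAlgebraic k A] {a : A}
    (ha : D.ι a ∈ D.RS) : a ∈ D.S := by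
  have : IsAlgClosure k A := ⟨inferInstance, inferInstance⟩
  have : Normal k A := IsAlgClosure.normal k A
  have : IsGalois k A := ⟨⟩
  apply mem_of_fixed
  intro σ hσ
  apply D.ι.injective
  rw [← D.hι]
  exact ha σ hσ

/-- `φ` acts on the fixed field -/
lemma φ_mem {m : M} (hm : m ∈ D.RS) : D.s D.φ m ∈ D.RS := by
  intro σ hσ
  have h1 : D.φ⁻¹ * σ * D.φ ∈ D.S.fixingSubgroup := by
    rw [IntermediateField.mem_fixingSubgroup_iff]
    intro x hx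
    change D.φ.symm (σ (D.φ x)) = x
    rw [(IntermediateField.mem_fixingSubgroup_iff _ _).1 hσ _ ((D.φS x).2 hx), D.φ.symm_apply_apply]
  have h2 := hm _ h1
  have h3 : σ * D.φ = D.φ * (D.φ⁻¹ * σ * D.φ) := by group
  change (D.s σ * D.s D.φ) m = _
  rw [← map_mul, h3, map_mul]
  change D.s D.φ (D.s (D.φ⁻¹ * σ * D.φ) m) = _
  rw [h2]

lemma φ_mem' {m : M} (hm : m ∈ D.RS) : D.s D.φ⁻¹ m ∈ D.RS := by
  intro σ hσ
  have h1 : D.φ * σ * D.φ⁻¹ ∈ D.S.fixingSubgroup := by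
    rw [IntermediateField.mem_fixingSubgroup_iff]
    intro x hx
    change D.φ (σ (D.φ.symm x)) = x
    have h4 : D.φ.symm x ∈ D.S := by
      rw [← D.φS, D.φ.apply_symm_apply]
      exact hx
    rw [(IntermediateField.mem_fixingSubgroup_iff _ _).1 hσ _ h4, D.φ.apply_symm_apply]
  have h2 := hm _ h1
  have h3 : σ * D.φ⁻¹ = D.φ⁻¹ * (D.φ * σ * D.φ⁻¹) := by group
  change (D.s σ * D.s D.φ⁻¹) m = _
  rw [← map_mul, h3, map_mul]
  change D.s D.φ⁻¹ (D.s (D.φ * σ * D.φ⁻¹) m) = _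
  rw [h2]

/-- `2 ^ n`-th roots of units -/
lemma root_unit [IsAlgClosed A] (n : ℕ) {η : A} (hη : η ∈ D.S) (hu : IsU D.V η) :
    ∃ ρ ∈ D.S, IsU D.V ρ ∧ ρ ^ (2 ^ n) = η := by
  induction n with
  | zero => exact ⟨η, hη, hu, by rw [pow_zero, pow_one]⟩
  | succ n ih =>
    obtain ⟨ρ, hρ, hρu, h⟩ := ih
    obtain ⟨τ, hτ⟩ := IsAlgClosed.exists_pow_nat_eq ρ (n := 2) (by norm_num)
    refine ⟨τ, D.sq ρ hρ hρu τ hτ, IsU.of_pow (n := 2) (by norm_num) (by rw [hτ]; exact hρu), ?_⟩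
    rw [pow_succ', pow_mul, hτ, h]

/-- **Kummer theory**: the elements of `RS` with a `2 ^ n`-th root in `M` -/
theorem kummer [CharZero k] [IsAlgClosed A] [Algebra.IsAlgebraic k A] (n : ℕ) {α : M}
    (hα0 : α ≠ 0) (hα : α ^ (2 ^ n) ∈ D.RS) :
    ∃ (j : ℤ) (β : M), β ∈ D.RS ∧ β ≠ 0 ∧ α ^ (2 ^ n) = D.ι D.p ^ j * β ^ (2 ^ n) := by
  have : IsAlgClosure k A := ⟨inferInstance, inferInstance⟩
  have : Normal k A := IsAlgClosure.normal k A
  have hn : 0 < 2 ^ n := by positivity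
  obtain ⟨E, hE, hE'⟩ := D.cont α
  obtain ⟨b, hb0, hb⟩ := exists_fixed_multiple D.s D.ι D.hι D.S.fixingSubgroup α hα0 (by
    intro σ hσ
    have h1 : (D.s σ α / α) ^ (2 ^ n) = D.ι 1 := by
      rw [div_pow, ← map_pow, hα σ hσ, div_self (pow_ne_zero _ hα0), map_one]
    obtain ⟨ζ, hζ⟩ := root_mem D.ι hn h1
    exact ⟨ζ, by rw [hζ, div_mul_cancel₀ _ hα0]⟩) E hE'
  have hb1 : D.ι b * α ∈ D.RS := hb
  have hbN : b ^ (2 ^ n) ∈ D.S := by
    apply D.mem_of_ι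
    have h1 : D.ι (b ^ (2 ^ n)) = (D.ι b * α) ^ (2 ^ n) / α ^ (2 ^ n) := by
      rw [mul_pow, map_pow, mul_div_cancel_right₀ _ (pow_ne_zero _ hα0)]
    rw [h1]
    exact div_mem (pow_mem hb1 _) hα
  obtain ⟨i, hi⟩ := D.tame _ hbN (pow_ne_zero _ hb0)
  have hi' : b ^ (2 ^ n) / D.p ^ i ∈ D.S := div_mem hbN (zpow_mem D.pS i)
  obtain ⟨ρ, hρS, hρu, hρ⟩ := D.root_unit n hi' hi
  refine ⟨-i, D.ι b * α / D.ι ρ, div_mem hb1 (D.ι_mem hρS),
    div_ne_zero (mul_ne_zero ((_root_.map_ne_zero _).2 hb0) hα0) ((_root_.map_ne_zero _).2 hρu.1), ?_⟩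
  have hp0 : D.ι D.p ≠ 0 := (_root_.map_ne_zero _).2 D.p0
  have hb0' : D.ι b ^ (2 ^ n) ≠ 0 := pow_ne_zero _ ((_root_.map_ne_zero _).2 hb0)
  rw [div_pow, ← map_pow D.ι ρ, hρ, map_div₀, map_pow, map_zpow₀, mul_pow, zpow_neg]
  field_simp

/-- uniqueness of the exponent -/
theorem uniq [CharZero k] [IsAlgClosed A] [Algebra.IsAlgebraic k A] (n : ℕ) {j : ℤ} {β : M}
    (hβ : β ∈ D.RS) (h : D.ι D.p ^ j = β ^ (2 ^ n)) : (2 ^ n : ℤ) ∣ j := by
  have hn : 0 < 2 ^ n := by positivity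
  obtain ⟨b, rfl⟩ := root_mem D.ι hn (h := β) (b := D.p ^ j) (by rw [← h, map_zpow₀])
  have hbS := D.mem_of_ι hβ
  rw [← map_zpow₀, ← map_pow] at h
  have h' := D.ι.injective h
  have hb0 : b ≠ 0 := by
    rintro rfl
    rw [zero_pow hn.ne'] at h'
    exact zpow_ne_zero j D.p0 h'
  obtain ⟨i, hi⟩ := D.tame b hbS hb0
  have h1 := hi.pow (2 ^ n)
  have h2 : (b / algebraMap k A D.ϖ ^ i) ^ (2 ^ n) = D.p ^ (j - i * (2 ^ n : ℕ)) := by
    rw [div_pow, ← h', zpow_sub₀ D.p0, zpow_mul, zpow_natCast]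
    rfl
  rw [h2] at h1
  have h3 := zpow_isU D.ϖn h1
  refine ⟨i, ?_⟩
  have h4 : j = i * (2 ^ n : ℕ) := by omega
  rw [h4]
  push_cast
  ring

end Dat

end Pool.Agent.W623.SecC
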