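import Pool.Agent.W623.SecC.Red
import Pool.Agent.W327.SecC.PartB1
import Pool.Agent.W933.SecC.PartB3

/-! # The local theorem -/

namespace Pool.Agent.W623.SecC

open Pool.Agent.W620.SC Polynomial IntermediateField

universe u v w

/-- no points over the base field -/
lemma no_point {K : Type*} [Field K] (V : ValuationSubring K) (φ : K →+* K)
    (hφV : ∀ x ∈ V.nonunits, φ x ∈ V.nonunits) (p : K) (hp : p ∈ V.nonunits) (hp0 : p ≠ 0)
    {X : Type*} [Fintype X] (hX : Even (Fintype.card X)) (θ : X → K) (hθV : ∀ i, θ i ∈ V)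
    (hθd : ∀ i j, i ≠ j → IsU V (θ i - θ j)) (π : X → X) (hπ : ∀ i, φ (θ i) = θ (π i))
    (hfix : ∀ i, π i ≠ i) (x y c : K) (hx : φ x = x) (m : ℤ) (hm : Odd m)
    (hc : IsU V (c / p ^ m)) (hxy : c * y ^ 2 = ∏ i, (x - θ i))
    (hxt : x ≠ 0 → ∃ j : ℤ, IsU V (x / p ^ j)) (hyt : y ≠ 0 → ∃ j : ℤ, IsU V (y / p ^ j)) :
    False := by
  classical
  have hmove : ∀ i, x - θ i ∉ V.nonunits := by
    intro i hi
    have h1 := sub_mem hi (hφV _ hi)
    have h2 : x - θ i - φ (x - θ i) = θ (π i) - θ i := by
      rw [map_sub, hx, hπ]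
      ring
    rw [h2] at h1
    exact (hθd _ _ (hfix i)).not_nonunit h1
  have hne : ∀ i, x - θ i ≠ 0 := by
    intro i h
    apply hmove i
    rw [h, ValuationSubring.mem_nonunits_iff_or]
    exact Or.inl rfl
  have hprod0 : ∏ i, (x - θ i) ≠ 0 := Finset.prod_ne_zero_iff.2 fun i _ => hne i
  have hy0 : y ≠ 0 := by
    rintro rfl
    rw [zero_pow (by norm_num), mul_zero] at hxy
    exact hprod0 hxy.symm
  obtain ⟨n, hn⟩ := hX
  obtain ⟨l, hl⟩ := hyt hy0
  -- the product is a unit times a square
  have hsq : ∃ i : ℤ, IsU V ((∏ i, (x - θ i)) / (p ^ i) ^ 2) := by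
    by_cases hxV : x ∈ V
    · refine ⟨0, ?_⟩
      rw [zpow_zero, one_pow, div_one]
      exact IsU.prod _ _ fun i _ => isU_of_not_nonunit (sub_mem hxV (hθV i)) (hmove i)
    · have hx0 : x ≠ 0 := by
        rintro rfl
        exact hxV (zero_mem _)
      have hxn : x⁻¹ ∈ V.nonunits := (V.inv_mem_nonunits_iff).2 (Or.inr hxV)
      obtain ⟨j, hj⟩ := hxt hx0
      refine ⟨j * n, ?_⟩
      have h1 : (∏ i, (x - θ i)) / (p ^ (j * n)) ^ 2 =
          (∏ i, ((x - θ i) / x)) * (x / p ^ j) ^ (Fintype.card X) := by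
        rw [Finset.prod_div_distrib, Finset.prod_const, Finset.card_univ, div_pow,
          div_mul_div_cancel₀ (pow_ne_zero _ hx0), hn]
        congr 1
        rw [zpow_mul, zpow_natCast, ← pow_mul, mul_two]
      rw [h1]
      refine (IsU.prod _ _ fun i _ => ?_).mul (hj.pow _)
      have h2 : (x - θ i) / x = 1 + (-θ i) * x⁻¹ := by
        field_simp
        ring
      rw [h2]
      exact isU_add_nonunit isU_one (nonunit_mul (neg_mem (hθV i)) hxn)
  obtain ⟨i, hi⟩ := hsq
  rw [← hxy] at hi
  have h1 : c * y ^ 2 / (p ^ i) ^ 2 = (c / p ^ m) * (y / p ^ l) ^ 2 * p ^ (m + l * 2 - i * 2) := by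
    rw [zpow_sub₀ hp0, zpow_add₀ hp0, zpow_mul, zpow_mul, zpow_ofNat, zpow_ofNat]
    have h2 : p ^ m ≠ 0 := zpow_ne_zero _ hp0
    have h3 : p ^ l ≠ 0 := zpow_ne_zero _ hp0
    have h4 : p ^ i ≠ 0 := zpow_ne_zero _ hp0
    field_simp
  rw [h1] at hi
  have h2 := hi.div (hc.mul (hl.pow 2))
  rw [mul_div_cancel_left₀ _ (hc.mul (hl.pow 2)).1] at h2
  have h3 := zpow_isU hp h2
  obtain ⟨m', rfl⟩ := hm
  omega

theorem local_no_section' {A k : Type u} {F : Type v} {Ω : Type w} [CommRing A] [IsDomain A]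
    [IsDiscreteValuationRing A] [Finite (IsLocalRing.ResidueField A)] [Field k] [Algebra A k]
    [IsFractionRing A k] [CharZero k] [Field F] [Field Ω] [Algebra k F] [Algebra F Ω]
    [Algebra k Ω] [IsScalarTower k F Ω] [IsAlgClosed Ω] [Algebra.IsAlgebraic F Ω]
    (hA7 : PartA7.{w, w}) (hA8 : PartA8.{w, w})
    (h2 : IsUnit (2 : A)) (f : A[X]) (hlc : IsUnit f.leadingCoeff)
    (hs : (f.map (IsLocalRing.residue A)).Separable) (hev : Even f.natDegree)
    (h4 : 4 ≤ f.natDegree) (hroot : ∀ b : A, f.eval b ∉ IsLocalRing.maximalIdeal A)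
    (ϖ : A) (hϖ : Irreducible ϖ) (a : k) (t : A) (ht : IsUnit t) (m : ℤ) (hm : Odd m)
    (ha : a = algebraMap A k t * algebraMap A k ϖ ^ m)
    (U : Set (ValuationSubring F)) (hU : ∀ O ∈ U, ∀ c : k, algebraMap k F c ∈ O)
    (x y : F) (hxy : algebraMap k F a * y ^ 2 = aeval x (f.map (algebraMap A k))) :
    IsEmpty (GSection k F Ω U) := by
  classical
  refine ⟨fun G => ?_⟩
  have hac : IsAlgClosure k (algebraicClosure k Ω) := inferInstance
  have hkb : IsAlgClosed (algebraicClosure k Ω) := hac.1
  let _ : Algebra A (algebraicClosure k Ω) :=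
    ((algebraMap k (algebraicClosure k Ω)).comp (algebraMap A k)).toAlgebra
  have hst : IsScalarTower A k (algebraicClosure k Ω) :=
    IsScalarTower.of_algebraMap_eq (fun _ => rfl)
  obtain ⟨V, φ, hVa, hVm, hφV, hφq⟩ :=
    W327.SecC.partB1 A k (algebraicClosure k Ω)
  set q := Nat.card (IsLocalRing.ResidueField A) with hq
  have hq2 : 2 ≤ q := by
    have := Fintype.ofFinite (IsLocalRing.ResidueField A)
    rw [hq, Nat.card_eq_fintype_card]
    exact Fintype.one_lt_card
  have hunit : ∀ b : A, IsUnit b → IsU V (algebraMap A (algebraicClosure k Ω) b) := by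
    rintro b ⟨b, rfl⟩
    refine ⟨(b.isUnit.map (algebraMap A (algebraicClosure k Ω))).ne_zero, hVa _, ?_⟩
    have h1 : (algebraMap A (algebraicClosure k Ω) (b : A))⁻¹ =
        algebraMap A (algebraicClosure k Ω) ((b⁻¹ : Aˣ) : A) := by
      refine inv_eq_of_mul_eq_one_right ?_
      rw [← map_mul, Units.mul_inv, map_one]
    rw [h1]
    exact hVa _
  have hAinj : Function.Injective (algebraMap A (algebraicClosure k Ω)) := by
    rw [IsScalarTower.algebraMap_eq A k (algebraicClosure k Ω)]
    exact (algebraMap k (algebraicClosure k Ω)).injective.comp (IsFractionRing.injective A k)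
  have hϖk0 : algebraMap A k ϖ ≠ 0 := by
    rw [Ne, map_eq_zero_iff _ (IsFractionRing.injective A k)]
    exact hϖ.ne_zero
  set p := algebraMap A (algebraicClosure k Ω) ϖ with hp
  have hp0 : p ≠ 0 := by
    rw [hp, Ne, map_eq_zero_iff _ hAinj]
    exact hϖ.ne_zero
  have hpn : p ∈ V.nonunits := hVm _ (by
    rw [hϖ.maximalIdeal_eq]
    exact Ideal.mem_span_singleton_self ϖ)
  have hpk : algebraMap k (algebraicClosure k Ω) (algebraMap A k ϖ) = p := rfl
  have h2V : (2 : algebraicClosure k Ω)⁻¹ ∈ V := by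
    have h1 := (hunit 2 h2).2.2
    rwa [map_ofNat] at h1
  -- the roots
  obtain ⟨hnd, hdist⟩ := roots_distinct V hVa hVm f hlc hs
  set P := f.map (algebraMap A (algebraicClosure k Ω)) with hP
  have hlc0 : algebraMap A (algebraicClosure k Ω) f.leadingCoeff ≠ 0 := (hunit _ hlc).1
  have hP0 : P ≠ 0 := by
    intro h
    apply hlc0
    rw [← leadingCoeff_map_of_leadingCoeff_ne_zero _ hlc0, ← hP, h, leadingCoeff_zero]
  have hPdeg : P.natDegree = f.natDegree := natDegree_map_of_leadingCoeff_ne_zero _ hlc0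
  have hmemroots : ∀ θ, θ ∈ P.roots.toFinset ↔ aeval θ f = 0 := by
    intro θ
    rw [Multiset.mem_toFinset, mem_roots hP0, IsRoot.def, hP, eval_map]
    rfl
  let X := {θ // θ ∈ P.roots.toFinset}
  have hcardX : Fintype.card X = f.natDegree := by
    rw [Fintype.card_coe, Multiset.toFinset_card_of_nodup hnd, ← hPdeg]
    exact (IsAlgClosed.splits P).natDegree_eq_card_roots.symm
  have hprodX : ∀ {B : Type w} [CommMonoid B] (g : algebraicClosure k Ω → B),
      ∏ i : X, g i = (P.roots.map g).prod := by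
    intro B _ g
    rw [Finset.prod_coe_sort P.roots.toFinset g, Finset.prod, Multiset.toFinset_val,
      Multiset.dedup_eq_self.2 hnd]
  have hφroot : ∀ θ, θ ∈ P.roots.toFinset ↔ φ θ ∈ P.roots.toFinset := by
    intro θ
    rw [hmemroots, hmemroots]
    have h1 : aeval (φ θ) f = φ (aeval θ f) := by
      rw [aeval_def, aeval_def]
      change _ = (φ : algebraicClosure k Ω →+* algebraicClosure k Ω) _
      rw [hom_eval₂]
      congr 1
      ext b
      exact congrArg Subtype.val (φ.commutes (algebraMap A k b)).symm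
    rw [h1, map_eq_zero_iff _ φ.injective]
  let π : Equiv.Perm X := φ.toEquiv.subtypeEquiv hφroot
  have hπ : ∀ i : X, φ (i : algebraicClosure k Ω) = (π i : algebraicClosure k Ω) := fun i => rfl
  have hθV : ∀ i : X, (i : algebraicClosure k Ω) ∈ V := fun i =>
    Pool.Agent.W308.SecC.root_mem V hVa f hlc _ ((hmemroots _).1 i.2)
  have hθd : ∀ i j : X, i ≠ j → IsU V ((i : algebraicClosure k Ω) - j) := by
    intro i j hij
    exact hdist _ (Multiset.mem_toFinset.1 i.2) _ (Multiset.mem_toFinset.1 j.2)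
      (fun h => hij (Subtype.ext h))
  -- no fixed point
  have hnofix : ∀ i : X, π i ≠ i := by
    intro i hi
    have h1 : φ (i : algebraicClosure k Ω) = i := by rw [hπ, hi]
    obtain ⟨b, hb⟩ := root_of_fixed V hVa hVm f hlc φ hφq i ((hmemroots _).1 i.2) h1
    exact hroot b hb
  -- the splitting field
  set L := IntermediateField.adjoin k {θ : algebraicClosure k Ω | aeval θ f = 0} with hL
  have hLtame : ∀ c ∈ L, c ≠ 0 → ∃ j : ℤ, IsU V (c / p ^ j) := fun c hc hc0 =>
    Pool.Agent.W308.SecC.partB2 A k (algebraicClosure k Ω) V hVa hVm ϖ hϖ f hlc hs c hc hc0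
  -- the product formula
  have hPx : ∀ {B : Type w} [Field B] (g : algebraicClosure k Ω →+* B) (z : B),
      P.eval₂ g z = g (algebraMap A (algebraicClosure k Ω) f.leadingCoeff) *
        ∏ i : X, (z - g i) := by
    intro B _ g z
    have h1 := (IsAlgClosed.splits P).eq_prod_roots
    have h5 : P.leadingCoeff = algebraMap A (algebraicClosure k Ω) f.leadingCoeff :=
      leadingCoeff_map_of_leadingCoeff_ne_zero _ hlc0
    rw [h5] at h1
    rw [hprodX (fun θ => z - g θ)]
    conv_lhs => rw [h1]
    rw [eval₂_mul, eval₂_C, ← coe_eval₂RingHom, map_multiset_prod, Multiset.map_map]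
    congr 2
    refine Multiset.map_congr rfl fun a _ => ?_
    simp
  set c : algebraicClosure k Ω := algebraMap k (algebraicClosure k Ω)
    (a / algebraMap A k f.leadingCoeff) with hc
  have hcu : IsU V (c / p ^ m) := by
    have h1 : c / p ^ m = algebraMap A (algebraicClosure k Ω) t /
        algebraMap A (algebraicClosure k Ω) f.leadingCoeff := by
      rw [hc, ha, map_div₀, map_mul, map_zpow₀, hpk, ← IsScalarTower.algebraMap_apply,
        ← IsScalarTower.algebraMap_apply]
      have h3 : p ^ m ≠ 0 := zpow_ne_zero _ hp0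
      field_simp
    rw [h1]
    exact (hunit t ht).div (hunit _ hlc)
  have hxyΩ : (c : Ω) * algebraMap F Ω y ^ 2 =
      ∏ i : X, (algebraMap F Ω x - ((i : algebraicClosure k Ω) : Ω)) := by
    have h1 := congrArg (algebraMap F Ω) hxy
    rw [map_mul, map_pow, ← IsScalarTower.algebraMap_apply] at h1
    have h3 : algebraMap F Ω (aeval x (f.map (algebraMap A k))) =
        P.eval₂ (algebraMap (algebraicClosure k Ω) Ω) (algebraMap F Ω x) := by
      rw [aeval_def, hom_eval₂, hP, eval₂_map, eval₂_map, ← IsScalarTower.algebraMap_eq k F Ω,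
        IsScalarTower.algebraMap_eq A k (algebraicClosure k Ω), ← RingHom.comp_assoc,
        ← IsScalarTower.algebraMap_eq k (algebraicClosure k Ω) Ω]
    rw [h3, hPx] at h1
    have h5 : algebraMap (algebraicClosure k Ω) Ω
        (algebraMap A (algebraicClosure k Ω) f.leadingCoeff) ≠ 0 :=
      (_root_.map_ne_zero _).2 hlc0
    have h6 : (c : Ω) = algebraMap k Ω a / algebraMap (algebraicClosure k Ω) Ω
        (algebraMap A (algebraicClosure k Ω) f.leadingCoeff) := by
      change algebraMap (algebraicClosure k Ω) Ω c = _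
      rw [hc, map_div₀, map_div₀, ← IsScalarTower.algebraMap_apply]
      rfl
    rw [h6, div_mul_eq_mul_div, h1, mul_div_cancel_left₀ _ h5]
    rfl
  have hGal : IsGalois k (algebraicClosure k Ω) := by
    have : Normal k (algebraicClosure k Ω) := IsAlgClosure.normal k _
    exact ⟨⟩
  -- constants of `F`
  have hfixF : ∀ (z : F) (b : algebraicClosure k Ω), (b : Ω) = algebraMap F Ω z →
      ∀ σ : algebraicClosure k Ω ≃ₐ[k] algebraicClosure k Ω, σ b = b := by
    intro z b hb σ
    apply Subtype.ext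
    rw [← G.compat σ b (algebraMap F (unramified F Ω U) z) hb.symm, (G.toHom σ).commutes]
    exact hb.symm
  by_cases htr : ∀ b : algebraicClosure k Ω, (b : Ω) ≠ algebraMap F Ω x
  · obtain ⟨S, hLS, hφS, hSsq, hStame⟩ := Pool.Agent.W933.SecC.partB3 k (algebraicClosure k Ω) V h2V
      (algebraMap A k ϖ) hϖk0 hpn L hLtame φ hφV (by
        have h1 : L.map (φ : algebraicClosure k Ω →ₐ[k] algebraicClosure k Ω) = L := by
          rw [hL, IntermediateField.adjoin_map]
          congr 1
          ext θ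
          constructor
          · rintro ⟨θ', h1, rfl⟩
            exact (hmemroots _).1 ((hφroot θ').1 ((hmemroots _).2 h1))
          · intro h1
            refine ⟨φ.symm θ, ?_, φ.apply_symm_apply θ⟩
            refine (hmemroots _).1 ((hφroot _).2 ?_)
            rw [φ.apply_symm_apply]
            exact (hmemroots _).2 h1
        intro z
        constructor
        · intro h3
          rw [← h1] at h3
          obtain ⟨z', h5, h6⟩ := h3
          have h7 : z' = z := φ.injective h6
          rw [← h7]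
          exact h5
        · intro h3
          rw [← h1]
          exact ⟨z, h3, rfl⟩)
    have hy0 : y ≠ 0 := by
      rintro rfl
      rw [map_zero, zero_pow (by norm_num), mul_zero] at hxyΩ
      obtain ⟨i, -, hi⟩ := Finset.prod_eq_zero_iff.1 hxyΩ.symm
      exact htr i (sub_eq_zero.1 hi).symm
    obtain ⟨i, hi⟩ := unr_main hA7 hA8 U hU G V S (algebraMap A k ϖ) hϖk0 hpn hSsq hStame φ hφV hφS
      h2V q hq2 hφq (X := X) (by rw [hcardX]; exact hev) (by rw [hcardX]; exact h4) (fun i => i)
      (fun i => hLS (IntermediateField.subset_adjoin k _ ((hmemroots _).1 i.2))) hθd π hπ x y hy0 c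
      (S.algebraMap_mem _) m hm hcu hxyΩ htr
    exact hnofix i hi
  · push Not at htr
    obtain ⟨x', hx'⟩ := htr
    have hfx := hfixF x x' hx'
    -- `y` is algebraic
    have hy' : ∃ y' : algebraicClosure k Ω, (y' : Ω) = algebraMap F Ω y := by
      have hc0 : (c : Ω) ≠ 0 := by
        have h1 : algebraMap (algebraicClosure k Ω) Ω c ≠ 0 := by
          rw [_root_.map_ne_zero]
          intro h
          rw [h, zero_div] at hcu
          exact hcu.1 rfl
        exact h1
      have h1 : algebraMap F Ω y ^ 2 = (((∏ i : X, (x' - (i : algebraicClosure k Ω))) / c :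
          algebraicClosure k Ω) : Ω) := by
        have h5 : (((∏ i : X, (x' - (i : algebraicClosure k Ω))) / c :
          algebraicClosure k Ω) : Ω) = (∏ i : X, ((x' : Ω) - ((i : algebraicClosure k Ω) : Ω))) /
            (c : Ω) := by
          change algebraMap (algebraicClosure k Ω) Ω ((∏ i : X, (x' - (i : algebraicClosure k Ω))) /
            c) = _
          rw [map_div₀, map_prod]
          rfl
        rw [h5, hx', ← hxyΩ, mul_div_cancel_left₀ _ hc0]
      have h3 : IsIntegral k (algebraMap F Ω y) := by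
        refine IsIntegral.of_pow (n := 2) (by norm_num) ?_
        rw [h1]
        exact ((∏ i : X, (x' - (i : algebraicClosure k Ω))) / c).2
      exact ⟨⟨_, h3⟩, rfl⟩
    obtain ⟨y', hy'⟩ := hy'
    have hfy := hfixF y y' hy'
    have hmemL : ∀ b : algebraicClosure k Ω,
        (∀ σ : algebraicClosure k Ω ≃ₐ[k] algebraicClosure k Ω, σ b = b) → b ∈ L := by
      intro b hb
      have h1 : b ∈ (⊥ : IntermediateField k (algebraicClosure k Ω)) :=
        mem_of_fixed _ fun σ _ => hb σ
      exact bot_le (a := L) h1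
    refine no_point V (φ : algebraicClosure k Ω →+* algebraicClosure k Ω) ?_ p hpn hp0 (X := X)
      (by rw [hcardX]; exact hev) (fun i => i) hθV hθd π hπ hnofix x' y' c (hfx φ) m hm hcu ?_
      (fun h => hLtame x' (hmemL x' hfx) h) (fun h => hLtame y' (hmemL y' hfy) h)
    · intro z hz
      rw [ValuationSubring.mem_nonunits_iff_or] at hz ⊢
      rcases hz with h | h
      · exact Or.inl (by rw [h, map_zero])
      · refine Or.inr ?_
        change (φ z)⁻¹ ∉ V
        rw [← map_inv₀, hφV]
        exact h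
    · apply (algebraMap (algebraicClosure k Ω) Ω).injective
      rw [map_mul, map_pow, map_prod]
      change (c : Ω) * (y' : Ω) ^ 2 = ∏ i : X, ((x' : Ω) - ((i : algebraicClosure k Ω) : Ω))
      rw [hx', hy']
      exact hxyΩ

end Pool.Agent.W623.SecC
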