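import Pool.Agent.W623.SecC.Kum

/-! # Parities -/

namespace Pool.Agent.W623.SecC

open Pool.Agent.W620.SC

namespace Dat

variable {k A M : Type*} [Field k] [Field A] [Field M] [Algebra k A] (D : Dat k A M)

/-- `u` is `p ^ j` up to squares of the fixed field -/
def Par (u : M) (j : ℤ) : Prop := ∃ β : M, β ∈ D.RS ∧ β ≠ 0 ∧ u = D.ι D.p ^ j * β ^ 2

variable {D}

lemma ιp0 : D.ι D.p ≠ 0 := (_root_.map_ne_zero _).2 D.p0

lemma ιpRS : D.ι D.p ∈ D.RS := D.ι_mem D.pS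

lemma Par.ne {u : M} {j : ℤ} (h : D.Par u j) : u ≠ 0 := by
  obtain ⟨β, -, h0, rfl⟩ := h
  exact mul_ne_zero (zpow_ne_zero _ ιp0) (pow_ne_zero _ h0)

lemma Par.mem {u : M} {j : ℤ} (h : D.Par u j) : u ∈ D.RS := by
  obtain ⟨β, h1, -, rfl⟩ := h
  exact mul_mem (zpow_mem ιpRS _) (pow_mem h1 _)

lemma Par.mul {u v : M} {i j : ℤ} (hu : D.Par u i) (hv : D.Par v j) : D.Par (u * v) (i + j) := by
  obtain ⟨β, h1, h0, rfl⟩ := hu
  obtain ⟨γ, h1', h0', rfl⟩ := hv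
  refine ⟨β * γ, mul_mem h1 h1', mul_ne_zero h0 h0', ?_⟩
  rw [zpow_add₀ ιp0]
  ring

lemma Par.inv {u : M} {i : ℤ} (hu : D.Par u i) : D.Par u⁻¹ (-i) := by
  obtain ⟨β, h1, h0, rfl⟩ := hu
  refine ⟨β⁻¹, inv_mem h1, inv_ne_zero h0, ?_⟩
  rw [mul_inv, inv_pow, zpow_neg]

lemma Par.div {u v : M} {i j : ℤ} (hu : D.Par u i) (hv : D.Par v j) : D.Par (u / v) (i - j) := by
  rw [div_eq_mul_inv, sub_eq_add_neg]
  exact hu.mul hv.inv

lemma Par.sq {u : M} (hu : u ∈ D.RS) (h0 : u ≠ 0) : D.Par (u ^ 2) 0 :=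
  ⟨u, hu, h0, by rw [zpow_zero, one_mul]⟩

lemma Par.one : D.Par 1 0 := ⟨1, one_mem _, one_ne_zero, by rw [zpow_zero, one_mul, one_pow]⟩

lemma Par.prod {I : Type*} (t : Finset I) (u : I → M) (j : I → ℤ) (h : ∀ i ∈ t, D.Par (u i) (j i)) :
    D.Par (∏ i ∈ t, u i) (∑ i ∈ t, j i) := by
  classical
  induction t using Finset.induction_on with
  | empty => rw [Finset.prod_empty, Finset.sum_empty]; exact Par.one
  | insert a t ha ih =>
    rw [Finset.prod_insert ha, Finset.sum_insert ha]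
    exact (h a (Finset.mem_insert_self a t)).mul
      (ih fun i hi => h i (Finset.mem_insert_of_mem hi))

/-- constants -/
lemma Par.const [IsAlgClosed A] {c : A} (hc : c ∈ D.S) {j : ℤ} (h : IsU D.V (c / D.p ^ j)) :
    D.Par (D.ι c) j := by
  obtain ⟨ρ, hρ, hρu, h1⟩ := D.root_unit 1 (div_mem hc (zpow_mem D.pS j)) h
  refine ⟨D.ι ρ, D.ι_mem hρ, (_root_.map_ne_zero _).2 hρu.1, ?_⟩
  rw [← map_zpow₀, ← map_pow, ← map_mul]
  congr 1
  rw [pow_one] at h1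
  rw [h1, mul_div_cancel₀ _ (zpow_ne_zero _ D.p0)]

lemma Par.const_unit [IsAlgClosed A] {c : A} (hc : c ∈ D.S) (h : IsU D.V c) : D.Par (D.ι c) 0 :=
  Par.const hc (by rw [zpow_zero, div_one]; exact h)

lemma Par.unique [CharZero k] [IsAlgClosed A] [Algebra.IsAlgebraic k A] {u : M} {i j : ℤ}
    (hi : D.Par u i) (hj : D.Par u j) : ((i : ZMod 2)) = j := by
  obtain ⟨β, h1, h0, h⟩ := hi
  obtain ⟨γ, h1', h0', h'⟩ := hj
  have h2 : D.ι D.p ^ (i - j) = (γ / β) ^ (2 ^ 1) := by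
    rw [zpow_sub₀ ιp0, pow_one, div_pow, div_eq_div_iff (zpow_ne_zero _ ιp0) (pow_ne_zero _ h0), ← h,
      h', mul_comm]
  have h3 := D.uniq 1 (div_mem h1' h1) h2
  rw [pow_one] at h3
  have h4 : ((i - j : ℤ) : ZMod 2) = 0 := by
    rw [ZMod.intCast_zmod_eq_zero_iff_dvd]
    exact_mod_cast h3
  rw [Int.cast_sub, sub_eq_zero] at h4
  exact h4

lemma Par.map_φ {u : M} {j : ℤ} (h : D.Par u j) : D.Par (D.s D.φ u) j := by
  obtain ⟨β, h1, h0, rfl⟩ := h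
  refine ⟨D.s D.φ β, D.φ_mem h1, (_root_.map_ne_zero _).2 h0, ?_⟩
  rw [map_mul, map_zpow₀, map_pow, D.hι]
  congr 3
  exact D.φ.commutes _

lemma Par.exists_root [IsAlgClosed A] {u : M} {j : ℤ} (h : D.Par u j) (hj : Even j) :
    ∃ w ∈ D.RS, w ^ 2 = u := by
  obtain ⟨β, h1, h0, rfl⟩ := h
  obtain ⟨i, rfl⟩ := hj
  refine ⟨D.ι D.p ^ i * β, mul_mem (zpow_mem ιpRS _) h1, ?_⟩
  rw [mul_pow, ← zpow_natCast (D.ι D.p ^ i), ← zpow_mul]
  congr 2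
  push_cast
  ring

lemma exists_par [CharZero k] [IsAlgClosed A] [Algebra.IsAlgebraic k A] {u : M} (hu : u ∈ D.RS)
    (h0 : u ≠ 0) {α : M} (hα : α ^ 2 = u) : ∃ j, D.Par u j := by
  have hα0 : α ≠ 0 := by
    rintro rfl
    rw [zero_pow (by norm_num)] at hα
    exact h0 hα.symm
  obtain ⟨j, β, h1, h2, h3⟩ := D.kummer 1 hα0 (by rw [pow_one, hα]; exact hu)
  rw [pow_one, hα] at h3
  exact ⟨j, β, h1, h2, h3⟩

end Dat

end Pool.Agent.W623.SecC
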