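import Pool.Agent.W623.SecC.All

/-! # The local theorem at a prime of a number field -/

namespace Pool.Agent.W623.SecC

open Pool.Agent.W620.SC Polynomial NumberField IsDedekindDomain

universe u v w

/-- the local ring of `v` has the properties needed -/
theorem local_data {K : Type u} [Field K] [NumberField K] (v : HeightOneSpectrum (𝓞 K))
    (h2 : (2 : 𝓞 K) ∉ v.asIdeal) (g : (𝓞 K)[X]) (hlc : g.leadingCoeff ∉ v.asIdeal)
    (hs : (g.map (Ideal.Quotient.mk v.asIdeal)).Separable)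
    (hroot : ∀ r : 𝓞 K ⧸ v.asIdeal, (g.map (Ideal.Quotient.mk v.asIdeal)).eval r ≠ 0)
    (b : 𝓞 K) (n : ℕ) (hb : b ∈ v.asIdeal ^ n) (hb' : b ∉ v.asIdeal ^ (n + 1)) :
    ∃ (A : Type u) (_ : CommRing A) (_ : IsDomain A) (_ : IsDiscreteValuationRing A)
      (_ : Algebra A K), Finite (IsLocalRing.ResidueField A) ∧ IsFractionRing A K ∧
      IsUnit (2 : A) ∧ ∃ f : A[X], f.map (algebraMap A K) = g.map (algebraMap (𝓞 K) K) ∧
        f.natDegree = g.natDegree ∧ IsUnit f.leadingCoeff ∧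
        (f.map (IsLocalRing.residue A)).Separable ∧
        (∀ b : A, f.eval b ∉ IsLocalRing.maximalIdeal A) ∧
        algebraMap A K f.leadingCoeff = algebraMap (𝓞 K) K g.leadingCoeff ∧
        ∃ ϖ t : A, Irreducible ϖ ∧ IsUnit t ∧
          algebraMap (𝓞 K) K b = algebraMap A K t * algebraMap A K ϖ ^ (n : ℤ) := by
  classical
  have hvm : v.asIdeal.IsMaximal := v.isMaximal
  have hvp : v.asIdeal.IsPrime := v.isPrime
  have hle : v.asIdeal.primeCompl ≤ nonZeroDivisors (𝓞 K) := v.asIdeal.primeCompl_le_nonZeroDivisors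
  let A := Localization.subalgebra.ofField K v.asIdeal.primeCompl hle
  have hloc : IsLocalization.AtPrime A v.asIdeal :=
    Localization.subalgebra.isLocalization_ofField K v.asIdeal.primeCompl hle
  have hdvr : IsDiscreteValuationRing A :=
    IsLocalization.AtPrime.isDiscreteValuationRing_of_dedekind_domain (𝓞 K) v.ne_bot A
  have hfr : IsFractionRing A K := inferInstance
  have hunit : ∀ c : 𝓞 K, c ∉ v.asIdeal → IsUnit (algebraMap (𝓞 K) A c) := fun c hc =>
    (IsLocalization.AtPrime.isUnit_to_map_iff A v.asIdeal c).2 hc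
  let e : (𝓞 K ⧸ v.asIdeal) ≃+* IsLocalRing.ResidueField A :=
    IsLocalization.AtPrime.equivQuotMaximalIdeal v.asIdeal A
  have hcomp : (IsLocalRing.residue A).comp (algebraMap (𝓞 K) A) =
      (e : (𝓞 K ⧸ v.asIdeal) →+* IsLocalRing.ResidueField A).comp
        (Ideal.Quotient.mk v.asIdeal) := by
    ext c
    rfl
  have hcompK : (algebraMap A K).comp (algebraMap (𝓞 K) A) = algebraMap (𝓞 K) K := by
    ext c
    rfl
  have hfin : Finite (IsLocalRing.ResidueField A) := by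
    have h1 : Finite (𝓞 K ⧸ v.asIdeal) := Ideal.finiteQuotientOfFreeOfNeBot _ v.ne_bot
    exact Finite.of_equiv _ e.toEquiv
  have hlcA0 : algebraMap (𝓞 K) A g.leadingCoeff ≠ 0 := (hunit _ hlc).ne_zero
  have hmapres : (g.map (algebraMap (𝓞 K) A)).map (IsLocalRing.residue A) =
      (g.map (Ideal.Quotient.mk v.asIdeal)).map
        (e : (𝓞 K ⧸ v.asIdeal) →+* IsLocalRing.ResidueField A) := by
    rw [Polynomial.map_map, hcomp, ← Polynomial.map_map]
  refine ⟨A, inferInstance, inferInstance, hdvr, inferInstance, hfin, hfr, ?_,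
    g.map (algebraMap (𝓞 K) A), ?_, ?_, ?_, ?_, ?_, ?_, ?_⟩
  · have h3 := hunit 2 h2
    rwa [map_ofNat] at h3
  · rw [Polynomial.map_map, hcompK]
  · exact natDegree_map_of_leadingCoeff_ne_zero _ hlcA0
  · rw [leadingCoeff_map_of_leadingCoeff_ne_zero _ hlcA0]
    exact hunit _ hlc
  · rw [hmapres]
    exact hs.map
  · intro c hc
    have h3 : IsLocalRing.residue A ((g.map (algebraMap (𝓞 K) A)).eval c) = 0 :=
      (IsLocalRing.residue_eq_zero_iff _).2 hc
    rw [← eval₂_at_apply, ← eval_map, hmapres, eval_map] at h3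
    obtain ⟨r, hr⟩ := e.surjective (IsLocalRing.residue A c)
    apply hroot r
    apply e.injective
    rw [map_zero, ← h3, ← hr]
    exact (eval₂_at_apply (e : (𝓞 K ⧸ v.asIdeal) →+* IsLocalRing.ResidueField A) r).symm
  · rw [leadingCoeff_map_of_leadingCoeff_ne_zero _ hlcA0, ← hcompK]
    rfl
  · obtain ⟨ϖ, hϖ⟩ := IsDiscreteValuationRing.exists_irreducible A
    have hpow : ∀ m : ℕ, b ∈ v.asIdeal ^ m ↔ algebraMap (𝓞 K) A b ∈
        IsLocalRing.maximalIdeal A ^ m := by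
      intro m
      rw [← IsLocalization.AtPrime.under_maximalIdeal_pow v.asIdeal A]
      rfl
    have hb0 : algebraMap (𝓞 K) A b ≠ 0 := by
      intro h
      apply hb'
      rw [hpow, h]
      exact zero_mem _
    obtain ⟨j, u, hj⟩ := IsDiscreteValuationRing.eq_unit_mul_pow_irreducible hb0 hϖ
    have hdvd : ∀ m : ℕ, b ∈ v.asIdeal ^ m ↔ m ≤ j := by
      intro m
      rw [hpow, hϖ.maximalIdeal_eq, Ideal.span_singleton_pow, Ideal.mem_span_singleton, hj,
        (Units.isUnit u).dvd_mul_left, pow_dvd_pow_iff hϖ.ne_zero hϖ.not_isUnit]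
    have hjn : j = n := by
      rw [hdvd] at hb hb'
      omega
    refine ⟨ϖ, u, hϖ, u.isUnit, ?_⟩
    rw [← hcompK, RingHom.comp_apply, hj, map_mul, map_pow, hjn, zpow_natCast]

section

variable {K : Type u} [Field K] [NumberField K] (v : HeightOneSpectrum (𝓞 K))
    (h2 : (2 : 𝓞 K) ∉ v.asIdeal) (g : (𝓞 K)[X]) (hlc : g.leadingCoeff ∉ v.asIdeal)
    (hs : (g.map (Ideal.Quotient.mk v.asIdeal)).Separable)
    (hroot : ∀ r : 𝓞 K ⧸ v.asIdeal, (g.map (Ideal.Quotient.mk v.asIdeal)).eval r ≠ 0)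
    (b : 𝓞 K) (n : ℕ) (hn : Odd n) (hb : b ∈ v.asIdeal ^ n) (hb' : b ∉ v.asIdeal ^ (n + 1))

include h2 hlc hs hroot hn hb hb'

theorem prime_no_section {F : Type v} {Ω : Type w} [Field F] [Field Ω] [Algebra K F]
    [Algebra F Ω] [Algebra K Ω] [IsScalarTower K F Ω] [IsAlgClosed Ω] [Algebra.IsAlgebraic F Ω]
    (hev : Even g.natDegree) (h4 : 4 ≤ g.natDegree)
    (U : Set (ValuationSubring F)) (hU : ∀ O ∈ U, ∀ c : K, algebraMap K F c ∈ O)
    (x y : F) (hxy : algebraMap K F (algebraMap (𝓞 K) K b) * y ^ 2 =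
      aeval x (g.map (algebraMap (𝓞 K) K))) :
    IsEmpty (GSection K F Ω U) := by
  obtain ⟨A, _, _, _, _, hfin, hfr, h2A, f, hfK, hdeg, hlcA, hsA, hrA, -, ϖ, t, hϖ, ht, hbt⟩ :=
    local_data v h2 g hlc hs hroot b n hb hb'
  refine local_no_section h2A f hlcA hsA (by rwa [hdeg]) (by rwa [hdeg]) hrA ϖ hϖ _ t ht n
    (by exact_mod_cast hn) hbt U hU x y ?_
  rw [hxy, hfK]

theorem prime_no_point (hev : Even g.natDegree) (x y : K) :
    algebraMap (𝓞 K) K b * y ^ 2 ≠ (g.map (algebraMap (𝓞 K) K)).eval x := by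
  obtain ⟨A, _, _, _, _, hfin, hfr, h2A, f, hfK, hdeg, hlcA, hsA, hrA, -, ϖ, t, hϖ, ht, hbt⟩ :=
    local_data v h2 g hlc hs hroot b n hb hb'
  rw [← hfK]
  exact no_affine_point ϖ hϖ f hlcA (by rwa [hdeg]) hrA _ t ht n (by exact_mod_cast hn) hbt x y

theorem prime_no_infinite (r : K) :
    algebraMap (𝓞 K) K b * r ^ 2 ≠ algebraMap (𝓞 K) K g.leadingCoeff := by
  obtain ⟨A, _, _, _, _, hfin, hfr, h2A, f, hfK, hdeg, hlcA, hsA, hrA, hlcK, ϖ, t, hϖ, ht, hbt⟩ :=
    local_data v h2 g hlc hs hroot b n hb hb'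
  rw [← hlcK]
  exact no_infinite_point ϖ hϖ f hlcA _ t ht n (by exact_mod_cast hn) hbt r

end

end Pool.Agent.W623.SecC
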