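import Pool.Agent.W623.SecC.Unr
import Pool.Agent.W308.SecC.B2

/-! # Reduction of the roots of a polynomial -/

namespace Pool.Agent.W623.SecC

open Polynomial

section red

variable {A kb : Type*} [CommRing A] [IsLocalRing A] [Field kb] [Algebra A kb]
  (V : ValuationSubring kb) (hV : ∀ a : A, algebraMap A kb a ∈ V)
  (hm : ∀ a ∈ IsLocalRing.maximalIdeal A, algebraMap A kb a ∈ V.nonunits)

/-- the map from `A` to `V` -/
noncomputable def toV : A →+* V := (algebraMap A kb).codRestrict V.toSubring hV

lemma residue_eq_zero {x : V} (h : (x : kb) ∈ V.nonunits) : IsLocalRing.residue V x = 0 := by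
  rw [IsLocalRing.residue_eq_zero_iff]
  rw [ValuationSubring.mem_nonunits_iff_exists_mem_maximalIdeal] at h
  obtain ⟨_, h2⟩ := h
  exact h2

lemma nonunit_of_residue {x : V} (h : IsLocalRing.residue V x = 0) : (x : kb) ∈ V.nonunits := by
  rw [IsLocalRing.residue_eq_zero_iff] at h
  rw [ValuationSubring.mem_nonunits_iff_exists_mem_maximalIdeal]
  exact ⟨x.2, h⟩

include hm in
lemma ker_le : ∀ a ∈ IsLocalRing.maximalIdeal A,
    ((IsLocalRing.residue V).comp (toV V hV)) a = 0 := fun a ha =>
  residue_eq_zero V (hm a ha)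

/-- the map of residue fields -/
noncomputable def resMap : IsLocalRing.ResidueField A →+* IsLocalRing.ResidueField V :=
  Ideal.Quotient.lift (IsLocalRing.maximalIdeal A) ((IsLocalRing.residue V).comp (toV V hV))
    (ker_le V hV hm)

lemma resMap_comp : (resMap V hV hm).comp (IsLocalRing.residue A) =
    (IsLocalRing.residue V).comp (toV V hV) := by
  ext a
  rfl

include hV hm in
/-- the roots are distinct modulo the maximal ideal -/
theorem roots_distinct [IsAlgClosed kb] (f : A[X]) (hf : IsUnit f.leadingCoeff)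
    (hs : (f.map (IsLocalRing.residue A)).Separable) :
    (f.map (algebraMap A kb)).roots.Nodup ∧
      ∀ θ ∈ (f.map (algebraMap A kb)).roots, ∀ θ' ∈ (f.map (algebraMap A kb)).roots, θ ≠ θ' →
        IsU V (θ - θ') := by
  classical
  set R := (f.map (algebraMap A kb)).roots with hR
  have hlc0 : algebraMap A kb f.leadingCoeff ≠ 0 := (hf.map (algebraMap A kb)).ne_zero
  have hf0 : f.map (algebraMap A kb) ≠ 0 := by
    intro h
    apply hlc0
    rw [← leadingCoeff_map_of_leadingCoeff_ne_zero _ hlc0, h, leadingCoeff_zero]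
  have hRV : ∀ θ ∈ R, θ ∈ V := by
    intro θ hθ
    refine Pool.Agent.W308.SecC.root_mem V hV f hf θ ?_
    rw [hR, mem_roots hf0, IsRoot.def, eval_map] at hθ
    exact hθ
  set R' : Multiset V := R.pmap (fun θ h => (⟨θ, h⟩ : V)) hRV with hR'
  have hR'R : R'.map (V.subtype) = R := by
    rw [hR', Multiset.map_pmap]
    exact (Multiset.pmap_eq_map _ _ _ _).trans (Multiset.map_id _)
  have hsub : V.subtype.comp (toV V hV) = algebraMap A kb := by
    ext a
    rfl
  have hprod : f.map (toV V hV) = C (toV V hV f.leadingCoeff) *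
      (R'.map (fun a => X - C a)).prod := by
    apply map_injective V.subtype V.subtype_injective
    rw [Polynomial.map_map, hsub, Polynomial.map_mul, map_C, Polynomial.map_multiset_prod,
      Multiset.map_map]
    have h1 := (IsAlgClosed.splits (f.map (algebraMap A kb))).eq_prod_roots
    rw [leadingCoeff_map_of_leadingCoeff_ne_zero _ hlc0, ← hR, ← hR'R, Multiset.map_map] at h1
    conv_lhs => rw [h1]
    congr 2
    refine Multiset.map_congr rfl fun a _ => ?_
    simp
  have hprod' : (f.map (IsLocalRing.residue A)).map (resMap V hV hm) =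
      C (IsLocalRing.residue V (toV V hV f.leadingCoeff)) *
      ((R'.map (IsLocalRing.residue V)).map (fun a => X - C a)).prod := by
    rw [Polynomial.map_map, resMap_comp, ← Polynomial.map_map, hprod, Polynomial.map_mul, map_C,
      Polynomial.map_multiset_prod, Multiset.map_map, Multiset.map_map]
    congr 2
    refine Multiset.map_congr rfl fun a _ => ?_
    simp
  have hsep : ((R'.map (IsLocalRing.residue V)).map (fun a => X - C a)).prod.Separable := by
    have h1 : ((f.map (IsLocalRing.residue A)).map (resMap V hV hm)).Separable := hs.map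
    rw [hprod'] at h1
    exact h1.of_mul_right
  have hnd := nodup_of_separable_prod hsep
  have hnd' : R'.Nodup := hnd.of_map
  constructor
  · rw [← hR'R]
    exact hnd'.map V.subtype_injective
  · intro θ hθ θ' hθ' hne
    have h1 : (⟨θ, hRV θ hθ⟩ : V) ∈ R' := by
      rw [hR', Multiset.mem_pmap]
      exact ⟨θ, hθ, rfl⟩
    have h2 : (⟨θ', hRV θ' hθ'⟩ : V) ∈ R' := by
      rw [hR', Multiset.mem_pmap]
      exact ⟨θ', hθ', rfl⟩
    refine isU_of_not_nonunit (sub_mem (hRV θ hθ) (hRV θ' hθ')) fun hn => ?_
    have h3 : IsLocalRing.residue V (⟨θ, hRV θ hθ⟩ - ⟨θ', hRV θ' hθ'⟩) = 0 :=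
      residue_eq_zero V hn
    rw [map_sub, sub_eq_zero] at h3
    have h4 := Multiset.inj_on_of_nodup_map hnd _ h1 _ h2 h3
    exact hne (congrArg Subtype.val h4)

include hV hm in
/-- a root fixed by Frobenius gives a root in the residue field -/
theorem root_of_fixed [Finite (IsLocalRing.ResidueField A)] (f : A[X])
    (hf : IsUnit f.leadingCoeff) (φ : kb → kb)
    (hφ : ∀ x ∈ V, φ x - x ^ Nat.card (IsLocalRing.ResidueField A) ∈ V.nonunits) (θ : kb)
    (hθ : aeval θ f = 0) (hfix : φ θ = θ) :
    ∃ b : A, f.eval b ∈ IsLocalRing.maximalIdeal A := by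
  classical
  have hθV := Pool.Agent.W308.SecC.root_mem V hV f hf θ hθ
  have := Fintype.ofFinite (IsLocalRing.ResidueField A)
  set q := Nat.card (IsLocalRing.ResidueField A) with hq
  set t := IsLocalRing.residue V ⟨θ, hθV⟩ with ht
  have h1 : t ^ q = t := by
    have h2 := hφ θ hθV
    rw [hfix] at h2
    have h3 : IsLocalRing.residue V (⟨θ, hθV⟩ - ⟨θ, hθV⟩ ^ q) = 0 := residue_eq_zero V h2
    rw [map_sub, map_pow, sub_eq_zero] at h3
    exact h3.symm
  have h2 : ∃ r : IsLocalRing.ResidueField A, resMap V hV hm r = t := by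
    have hcard : Fintype.card (IsLocalRing.ResidueField A) = q := by
      rw [hq, Nat.card_eq_fintype_card]
    have hs : (X ^ q - X : (IsLocalRing.ResidueField A)[X]).Splits := by
      rw [splits_iff_card_roots, ← hcard, FiniteField.roots_X_pow_card_sub_X,
        FiniteField.X_pow_card_sub_X_natDegree_eq _ Fintype.one_lt_card]
      rfl
    have hne : (X ^ q - X : (IsLocalRing.ResidueField A)[X]) ≠ 0 := by
      rw [← hcard]
      exact FiniteField.X_pow_card_sub_X_ne_zero _ Fintype.one_lt_card
    exact hs.mem_range_of_isRoot (i := resMap V hV hm) (x := t) hne (by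
      simp [h1])
  obtain ⟨r, hr⟩ := h2
  obtain ⟨b, rfl⟩ := IsLocalRing.residue_surjective r
  refine ⟨b, ?_⟩
  rw [← IsLocalRing.residue_eq_zero_iff]
  apply (resMap V hV hm).injective
  rw [map_zero]
  have h3 : IsLocalRing.residue A (f.eval b) =
      (f.map (IsLocalRing.residue A)).eval (IsLocalRing.residue A b) := by
    rw [eval_map, eval₂_at_apply]
  have h4 : (toV V hV) = (algebraMap A kb).codRestrict V.toSubring hV := rfl
  have h5 : eval₂ (toV V hV) (⟨θ, hθV⟩ : V) f = 0 := by
    apply V.subtype_injective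
    rw [hom_eval₂, map_zero]
    exact hθ
  rw [h3, ← eval₂_at_apply, eval₂_map, resMap_comp, hr, ht, ← hom_eval₂, h5, map_zero]

end red

end Pool.Agent.W623.SecC
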