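import Pool.Agent.W620.SC.Obstruction
import Pool.Agent.W623.SecC.Abs

/-! # The data attached to a Galois section -/

namespace Pool.Agent.W623.SecC

open Pool.Agent.W620.SC Polynomial IntermediateField

universe u v w

section units

variable {K : Type*} [Field K] {W : ValuationSubring K}

lemma isU_of_not_nonunit {a : K} (ha : a ∈ W) (hn : a ∉ W.nonunits) : IsU W a := by
  rw [ValuationSubring.mem_nonunits_iff_or, not_or, not_not] at hn
  exact ⟨hn.1, ha, hn.2⟩

lemma nonunit_mul {a b : K} (ha : a ∈ W) (hb : b ∈ W.nonunits) : a * b ∈ W.nonunits := by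
  rw [W.mem_nonunits_iff, map_mul]
  exact lt_of_le_of_lt (mul_le_of_le_one_left' ((W.valuation_le_one_iff _).2 ha))
    ((W.mem_nonunits_iff).1 hb)

lemma isU_add_nonunit {a b : K} (ha : IsU W a) (hb : b ∈ W.nonunits) : IsU W (a + b) := by
  refine isU_of_not_nonunit (add_mem ha.2.1 (W.nonunits_subset hb)) fun h => ?_
  have h1 : a ∈ W.nonunits := by
    have h2 := sub_mem h hb
    rwa [add_sub_cancel_right] at h2
  exact ha.not_nonunit h1

lemma IsU.prod {I : Type*} (t : Finset I) (g : I → K) (h : ∀ i ∈ t, IsU W (g i)) :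
    IsU W (∏ i ∈ t, g i) := by
  classical
  induction t using Finset.induction_on with
  | empty => rw [Finset.prod_empty]; exact isU_one
  | insert a t ha ih =>
    rw [Finset.prod_insert ha]
    exact (h a (Finset.mem_insert_self a t)).mul
      (ih fun i hi => h i (Finset.mem_insert_of_mem hi))

end units

variable {k : Type u} {F : Type v} {Ω : Type w} [Field k] [Field F] [Field Ω] [Algebra k F]
  [Algebra F Ω] [Algebra k Ω] [IsScalarTower k F Ω]

/-- roots of elements which are powers up to units at all places -/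
lemma exists_root_unramified [IsAlgClosed Ω] (U : Set (ValuationSubring F))
    (hU : ∀ O ∈ U, ∀ c : k, algebraMap k F c ∈ O) {n : ℕ} (hn : 0 < n)
    (z : unramified F Ω U)
    (h : (z : Ω) ≠ 0 → ∀ W : ValuationSubring Ω, W.comap (algebraMap F Ω) ∈ U →
      ∃ t ∈ unramified F Ω U, t ≠ 0 ∧ (z : Ω) / t ^ n ∈ W ∧ t ^ n / (z : Ω) ∈ W) :
    ∃ α : unramified F Ω U, α ^ n = z := by
  by_cases hz0 : (z : Ω) = 0
  · refine ⟨0, Subtype.ext ?_⟩
    rw [zero_pow hn.ne', hz0]
    rfl
  have hWk : ∀ W : ValuationSubring Ω, W.comap (algebraMap F Ω) ∈ U →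
      ∀ c : k, algebraMap k Ω c ∈ W := by
    intro W hW c
    rw [IsScalarTower.algebraMap_apply k F Ω]
    exact hU _ hW c
  obtain ⟨α, hα⟩ := IsAlgClosed.exists_pow_nat_eq (z : Ω) hn
  have hα0 : α ≠ 0 := by
    rintro rfl
    rw [zero_pow hn.ne'] at hα
    exact hz0 hα.symm
  have hαU : α ∈ unramified F Ω U := by
    rw [mem_unramified]
    intro W hW σ hσ
    obtain ⟨t, ht, ht0, h1, h2⟩ := h hz0 W hW
    refine inertia_root (k := k) (hWk W hW) hσ hn (t := t) ?_ (mem_unramified.1 ht W hW σ hσ) ht0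
      hα0 ?_ ?_
    · rw [hα]
      exact mem_unramified.1 z.2 W hW σ hσ
    · rw [hα]
      exact h1
    · rw [hα]
      exact h2
  exact ⟨⟨α, hαU⟩, Subtype.ext hα⟩

/-- the data attached to a section -/
noncomputable def mkDat [CharZero k] [IsAlgClosed Ω] [Algebra.IsAlgebraic F Ω]
    (U : Set (ValuationSubring F)) (hU : ∀ O ∈ U, ∀ c : k, algebraMap k F c ∈ O)
    (G : GSection k F Ω U) (V : ValuationSubring (algebraicClosure k Ω))
    (S : IntermediateField k (algebraicClosure k Ω)) (ϖ : k) (ϖ0 : ϖ ≠ 0)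
    (ϖn : algebraMap k (algebraicClosure k Ω) ϖ ∈ V.nonunits)
    (sq : ∀ η ∈ S, IsU V η → ∀ ρ : algebraicClosure k Ω, ρ ^ 2 = η → ρ ∈ S)
    (tame : ∀ c ∈ S, c ≠ 0 → ∃ j : ℤ, IsU V (c / algebraMap k (algebraicClosure k Ω) ϖ ^ j))
    (φ : algebraicClosure k Ω ≃ₐ[k] algebraicClosure k Ω) (φV : ∀ x, φ x ∈ V ↔ x ∈ V)
    (φS : ∀ x, φ x ∈ S ↔ x ∈ S) : Dat k (algebraicClosure k Ω) (unramified F Ω U) where
  s := (toRingAutHom F (unramified F Ω U)).comp G.toHom
  ι := constHom hU
  hι := fun σ x => Subtype.ext (G.compat σ x (constHom hU x) rfl)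
  cont := by
    intro w
    have h1 : {e : unramified F Ω U ≃ₐ[F] unramified F Ω U | e w = w} ∈
        nhds (1 : unramified F Ω U ≃ₐ[F] unramified F Ω U) := by
      rw [krullTopology_mem_nhds_one_iff]
      refine ⟨F⟮w⟯, ?_, ?_⟩
      · exact adjoin.finiteDimensional (Algebra.IsIntegral.isIntegral _)
      · intro e he
        exact (mem_fixingSubgroup_iff _ _).1 he _ (mem_adjoin_simple_self F _)
    have h2 := G.cont.tendsto 1
    rw [map_one] at h2
    have h3 := h2 h1
    rw [Filter.mem_map, krullTopology_mem_nhds_one_iff] at h3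
    obtain ⟨E, hE, hE'⟩ := h3
    exact ⟨E, hE, fun σ hσ => hE' hσ⟩
  S := S
  V := V
  ϖ := ϖ
  ϖ0 := ϖ0
  ϖn := ϖn
  sq := sq
  tame := tame
  φ := φ
  φV := φV
  φS := φS

/-- ratios of the `x - θ i` are squares up to units at all places -/
lemma ratio_local {A : Type*} [Field A] (j : A →+* Ω) (W : ValuationSubring Ω)
    (hW : ∀ c, j c ∈ W) {X : Type*} [Fintype X] [DecidableEq X] (θ : X → A)
    (hθ : Function.Injective θ) (x y : Ω) (hy0 : y ≠ 0) (c : A) (hc : c ≠ 0)
    (hxy : j c * y ^ 2 = ∏ i, (x - j (θ i))) (i i' : X) (hi : i ≠ i')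
    (hr0 : (x - j (θ i)) / (x - j (θ i')) ≠ 0) :
    ∃ t : Ω, (t = 1 ∨ t = y ∨ t = y⁻¹) ∧ t ≠ 0 ∧
      (x - j (θ i)) / (x - j (θ i')) / t ^ 2 ∈ W ∧ t ^ 2 / ((x - j (θ i)) / (x - j (θ i'))) ∈ W := by
  have hconst : ∀ a : A, a ≠ 0 → IsU W (j a) := fun a ha =>
    ⟨(_root_.map_ne_zero j).2 ha, hW a, by rw [← map_inv₀]; exact hW _⟩
  have hsuff : ∀ t : Ω, t ≠ 0 → IsU W ((x - j (θ i)) / (x - j (θ i')) / t ^ 2) →
      t ≠ 0 ∧ (x - j (θ i)) / (x - j (θ i')) / t ^ 2 ∈ W ∧
        t ^ 2 / ((x - j (θ i)) / (x - j (θ i'))) ∈ W := by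
    intro t ht h
    refine ⟨ht, h.2.1, ?_⟩
    have := h.2.2
    rwa [inv_div] at this
  have hi0 : x - j (θ i) ≠ 0 := fun h => hr0 (by rw [h, zero_div])
  have hi'0 : x - j (θ i') ≠ 0 := fun h => hr0 (by rw [h, div_zero])
  by_cases hx : x ∈ W
  · have hmem : ∀ l, x - j (θ l) ∈ W := fun l => sub_mem hx (hW _)
    -- at most one of the factors is a nonunit
    have hother : ∀ l, x - j (θ l) ∈ W.nonunits → ∀ l', l' ≠ l → IsU W (x - j (θ l')) := by
      intro l hl l' hl'
      have h1 : x - j (θ l') = j (θ l - θ l') + (x - j (θ l)) := by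
        rw [map_sub]
        ring
      rw [h1]
      exact isU_add_nonunit (hconst _ (sub_ne_zero.2 (hθ.ne hl'.symm))) hl
    by_cases hni : x - j (θ i) ∈ W.nonunits
    · refine ⟨y, Or.inr (Or.inl rfl), hsuff y hy0 ?_⟩
      have hP : IsU W (∏ l ∈ Finset.univ.erase i, (x - j (θ l))) :=
        IsU.prod _ _ fun l hl => hother i hni l (Finset.ne_of_mem_erase hl)
      have h1 : j c * y ^ 2 = (x - j (θ i)) * ∏ l ∈ Finset.univ.erase i, (x - j (θ l)) := by
        rw [hxy, Finset.mul_prod_erase Finset.univ (fun l => x - j (θ l)) (Finset.mem_univ i)]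
      have h2 : (x - j (θ i)) / (x - j (θ i')) / y ^ 2 =
          j c / (x - j (θ i')) / ∏ l ∈ Finset.univ.erase i, (x - j (θ l)) := by
        have h3 := hP.1
        rw [div_div, div_div, div_eq_div_iff (mul_ne_zero hi'0 (pow_ne_zero 2 hy0))
          (mul_ne_zero hi'0 h3)]
        linear_combination (-(x - j (θ i'))) * h1
      rw [h2]
      exact ((hconst c hc).div (hother i hni i' hi.symm)).div hP
    · by_cases hni' : x - j (θ i') ∈ W.nonunits
      · refine ⟨y⁻¹, Or.inr (Or.inr rfl), hsuff y⁻¹ (inv_ne_zero hy0) ?_⟩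
        have hP : IsU W (∏ l ∈ Finset.univ.erase i', (x - j (θ l))) :=
          IsU.prod _ _ fun l hl => hother i' hni' l (Finset.ne_of_mem_erase hl)
        have h1 : j c * y ^ 2 = (x - j (θ i')) * ∏ l ∈ Finset.univ.erase i', (x - j (θ l)) := by
          rw [hxy, Finset.mul_prod_erase Finset.univ (fun l => x - j (θ l)) (Finset.mem_univ i')]
        have hc0 : j c ≠ 0 := (_root_.map_ne_zero j).2 hc
        have h2 : (x - j (θ i)) / (x - j (θ i')) / y⁻¹ ^ 2 =
            (x - j (θ i)) * (∏ l ∈ Finset.univ.erase i', (x - j (θ l))) / j c := by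
          rw [inv_pow, div_inv_eq_mul, div_mul_eq_mul_div, div_eq_div_iff hi'0 hc0]
          linear_combination (x - j (θ i)) * h1
        rw [h2]
        exact ((hother i' hni' i hi).mul hP).div (hconst c hc)
      · refine ⟨1, Or.inl rfl, hsuff 1 one_ne_zero ?_⟩
        rw [one_pow, div_one]
        exact (isU_of_not_nonunit (hmem i) hni).div (isU_of_not_nonunit (hmem i') hni')
  · have hx0 : x ≠ 0 := by
      rintro rfl
      exact hx (zero_mem _)
    have hxn : x⁻¹ ∈ W.nonunits := (W.inv_mem_nonunits_iff).2 (Or.inr hx)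
    have hu : ∀ l, IsU W ((x - j (θ l)) / x) := by
      intro l
      have h1 : (x - j (θ l)) / x = 1 + (-j (θ l)) * x⁻¹ := by
        field_simp
        ring
      rw [h1]
      exact isU_add_nonunit isU_one (nonunit_mul (neg_mem (hW _)) hxn)
    refine ⟨1, Or.inl rfl, hsuff 1 one_ne_zero ?_⟩
    rw [one_pow, div_one]
    have h1 : (x - j (θ i)) / (x - j (θ i')) = (x - j (θ i)) / x / ((x - j (θ i')) / x) := by
      rw [div_div_div_cancel_right₀ hx0]
    rw [h1]
    exact (hu i).div (hu i')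

theorem unr_main [CharZero k] [IsAlgClosed Ω] [Algebra.IsAlgebraic F Ω]
    (hA7 : PartA7.{w, w}) (hA8 : PartA8.{w, w})
    (U : Set (ValuationSubring F)) (hU : ∀ O ∈ U, ∀ c : k, algebraMap k F c ∈ O)
    (G : GSection k F Ω U) (V : ValuationSubring (algebraicClosure k Ω))
    (S : IntermediateField k (algebraicClosure k Ω)) (ϖ : k) (ϖ0 : ϖ ≠ 0)
    (ϖn : algebraMap k (algebraicClosure k Ω) ϖ ∈ V.nonunits)
    (sq : ∀ η ∈ S, IsU V η → ∀ ρ : algebraicClosure k Ω, ρ ^ 2 = η → ρ ∈ S)
    (tame : ∀ c ∈ S, c ≠ 0 → ∃ j : ℤ, IsU V (c / algebraMap k (algebraicClosure k Ω) ϖ ^ j))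
    (φ : algebraicClosure k Ω ≃ₐ[k] algebraicClosure k Ω) (φV : ∀ x, φ x ∈ V ↔ x ∈ V)
    (φS : ∀ x, φ x ∈ S ↔ x ∈ S)
    (h2 : (2 : algebraicClosure k Ω)⁻¹ ∈ V) (q : ℕ) (hq2 : 2 ≤ q)
    (hq : ∀ x ∈ V, φ x - x ^ q ∈ V.nonunits)
    {X : Type*} [Fintype X] [DecidableEq X] (hX : Even (Fintype.card X))
    (hX4 : 4 ≤ Fintype.card X) (θ : X → algebraicClosure k Ω) (hθS : ∀ i, θ i ∈ S)
    (hθd : ∀ i j, i ≠ j → IsU V (θ i - θ j)) (π : Equiv.Perm X)
    (hπ : ∀ i, φ (θ i) = θ (π i)) (x y : F) (hy0 : y ≠ 0) (c : algebraicClosure k Ω) (hcS : c ∈ S)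
    (jc : ℤ) (hjc : Odd jc) (hc : IsU V (c / algebraMap k (algebraicClosure k Ω) ϖ ^ jc))
    (hxy : (c : Ω) * algebraMap F Ω y ^ 2 = ∏ i, (algebraMap F Ω x - (θ i : Ω)))
    (htr : ∀ a : algebraicClosure k Ω, (a : Ω) ≠ algebraMap F Ω x) :
    ∃ i, π i = i := by
  have hac : IsAlgClosure k (algebraicClosure k Ω) := inferInstance
  have hA : IsAlgClosed (algebraicClosure k Ω) := hac.1
  have hWk : ∀ W : ValuationSubring Ω, W.comap (algebraMap F Ω) ∈ U →
      ∀ c : k, algebraMap k Ω c ∈ W := by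
    intro W hW c
    rw [IsScalarTower.algebraMap_apply k F Ω]
    exact hU _ hW c
  have hWA : ∀ W : ValuationSubring Ω, W.comap (algebraMap F Ω) ∈ U →
      ∀ c : algebraicClosure k Ω, algebraMap (algebraicClosure k Ω) Ω c ∈ W := by
    intro W hW c
    exact const_mem (hWk W hW) c.2
  have hc0 : c ≠ 0 := by
    rintro rfl
    rw [zero_div] at hc
    exact hc.1 rfl
  have hθinj : Function.Injective θ := by
    intro i j hij
    by_contra hne
    exact (hθd i j hne).1 (sub_eq_zero.2 hij)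
  set D := mkDat U hU G V S ϖ ϖ0 ϖn sq tame φ φV φS with hD
  have hyM0 : algebraMap F (unramified F Ω U) y ≠ 0 := (_root_.map_ne_zero _).2 hy0
  have hyΩ : algebraMap F Ω y ≠ 0 := (_root_.map_ne_zero _).2 hy0
  refine D.abs hA8 h2 q hq2 hq hX hX4 θ hθS hθd π hπ (algebraMap F (unramified F Ω U) x) (algebraMap F (unramified F Ω U) y)
    (fun σ => (G.toHom σ).commutes x) (fun σ => (G.toHom σ).commutes y) hyM0 c hcS jc hjc hc ?_ ?_
    ?_ ?_
  · apply (algebraMap (unramified F Ω U) Ω).injective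
    rw [map_mul, map_pow, map_prod]
    exact hxy
  · intro a h
    exact htr a (congrArg (algebraMap (unramified F Ω U) Ω) h)
  · -- square roots
    intro i i'
    by_cases hii : i = i'
    · subst hii
      refine ⟨1, ?_⟩
      rw [one_pow, div_self]
      intro h
      refine htr (θ i) ?_
      have h1 := congrArg (algebraMap (unramified F Ω U) Ω) (sub_eq_zero.1 h)
      exact h1.symm
    · have hval : (((algebraMap F (unramified F Ω U) x - D.ι (θ i)) / (algebraMap F (unramified F Ω U) x - D.ι (θ i')) : unramified F Ω U) : Ω) =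
          (algebraMap F Ω x - algebraMap (algebraicClosure k Ω) Ω (θ i)) /
            (algebraMap F Ω x - algebraMap (algebraicClosure k Ω) Ω (θ i')) := by
        change algebraMap (unramified F Ω U) Ω ((algebraMap F (unramified F Ω U) x - D.ι (θ i)) /
          (algebraMap F (unramified F Ω U) x - D.ι (θ i'))) = _
        rw [map_div₀, map_sub, map_sub]
        rfl
      refine exists_root_unramified (k := k) U hU (n := 2) (by norm_num) _ ?_
      intro hne W hW
      rw [hval] at hne ⊢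
      obtain ⟨t, ht, ht0, h3, h4⟩ := ratio_local (algebraMap (algebraicClosure k Ω) Ω) W (hWA W hW)
        θ hθinj (algebraMap F Ω x) (algebraMap F Ω y) hyΩ c hc0 hxy i i' hii hne
      refine ⟨t, ?_, ht0, h3, h4⟩
      rcases ht with rfl | rfl | rfl
      · exact one_mem _
      · exact IntermediateField.algebraMap_mem _ y
      · exact inv_mem (IntermediateField.algebraMap_mem _ y)
  · -- the roots of the generators
    intro z w e W hWe hzw htrS n x' y' hxy' f hf
    have hzw'' : W.polynomial.eval₂ (eval₂RingHom ((algebraMap (unramified F Ω U) Ω).comp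
        (D.ι.comp (algebraMap D.S (algebraicClosure k Ω)))) (z : Ω)) (w : Ω) = 0 := by
      have h3 := congrArg (algebraMap (unramified F Ω U) Ω) hzw
      rw [hom_eval₂, map_zero] at h3
      rw [← h3]
      congr 1
      ext a
      · simp
      · simp
    have hev : algebraMap (unramified F Ω U) Ω (ev W (D.ι.comp (algebraMap D.S (algebraicClosure k Ω))) z w hzw f) =
        ev W ((algebraMap (unramified F Ω U) Ω).comp (D.ι.comp (algebraMap D.S (algebraicClosure k Ω)))) (z : Ω)
          (w : Ω) hzw'' f :=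
      ev_map W _ _ _ hzw (algebraMap (unramified F Ω U) Ω) _ _ _ hzw'' rfl rfl rfl f
    refine exists_root_unramified (k := k) U hU (by positivity) _ ?_
    intro hne O hO
    obtain ⟨t, ht, ht0, h3, h4⟩ := hA7 D.S Ω ((algebraMap (unramified F Ω U) Ω).comp
        (D.ι.comp (algebraMap D.S (algebraicClosure k Ω)))) O (fun c => hWA O hO (c : algebraicClosure k Ω))
        e W hWe (z : Ω) (w : Ω) hzw'' (by
          intro P hP h
          apply htrS P hP
          apply (algebraMap (unramified F Ω U) Ω).injective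
          rw [hom_eval₂, map_zero]
          exact h) (2 ^ n) x' y' hxy' f hf
    refine ⟨t, ?_, ht0, ?_, ?_⟩
    · rcases ht with rfl | rfl | rfl
      · exact sub_mem z.2 (D.ι _).2
      · exact sub_mem w.2 (D.ι _).2
      · exact div_mem w.2 z.2
    · change algebraMap (unramified F Ω U) Ω _ / _ ∈ O
      rw [hev]
      exact h3
    · change _ / algebraMap (unramified F Ω U) Ω _ ∈ O
      rw [hev]
      exact h4

end Pool.Agent.W623.SecC
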